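import Pool.Agent.Helper201_BT.Ind

set_option autoImplicit false
set_option maxHeartbeats 4000000

namespace Pool.Agent.Helper201_BT

open Relation

/-- darts of a list of faces, each with the next vertex of its face -/
def dl (F : List (ℕ × ℕ × ℕ × ℕ)) : List ((ℕ × ℕ) × ℕ) :=
  F.flatMap fun f => [((f.1, f.2.1), f.2.2.1), ((f.2.1, f.2.2.1), f.2.2.2),
    ((f.2.2.1, f.2.2.2), f.1), ((f.2.2.2, f.1), f.2.1)]

def mkD (F : List (ℕ × ℕ × ℕ × ℕ)) : Finset (ℕ × ℕ) := ((dl F).map Prod.fst).toFinset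

def look : List ((ℕ × ℕ) × ℕ) → ℕ → ℕ → ℕ
  | [], _, _ => 0
  | t :: l, x, y => if Nat.beq t.1.1 x && Nat.beq t.1.2 y then t.2 else look l x y

def mkN (F : List (ℕ × ℕ × ℕ × ℕ)) : ℕ → ℕ → ℕ := look (dl F)

def reach (f : ℕ → ℕ) : ℕ → ℕ → ℕ → Bool
  | 0, a, b => Nat.beq a b
  | k + 1, a, b => Nat.beq a b || reach f k (f a) b

theorem reach_spec {f : ℕ → ℕ} {R : ℕ → ℕ → Prop} {T : ℕ → Prop}
    (hT : ∀ a, T a → T (f a) ∧ R a (f a)) :
    ∀ (k a b : ℕ), T a → reach f k a b = true → ReflTransGen R a b := by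
  intro k
  induction k with
  | zero =>
    intro a b _ h
    have : a = b := Nat.eq_of_beq_eq_true h
    rw [this]
  | succ k ih =>
    intro a b ha h
    rw [reach, Bool.or_eq_true] at h
    rcases h with h | h
    · have : a = b := Nat.eq_of_beq_eq_true h
      rw [this]
    · exact ReflTransGen.head (hT a ha).2 (ih _ _ (hT a ha).1 h)

/-- everything that has to be checked by computation -/
def Chk (F : List (ℕ × ℕ × ℕ × ℕ)) (col : ℕ → Bool) (par : ℕ → ℕ) : Prop :=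
  (∀ e ∈ dl F, (e.1.2, e.1.1) ∈ (dl F).map Prod.fst) ∧
  (∀ e ∈ dl F, e.1.1 < 14) ∧
  (∀ e ∈ dl F, col e.1.1 ≠ col e.1.2) ∧
  (∀ e ∈ dl F, mkN F e.1.1 e.1.2 = e.2) ∧
  (∀ e ∈ dl F, (e.1.2, e.2) ∈ (dl F).map Prod.fst) ∧
  (∀ e ∈ dl F, e.2 ≠ e.1.1) ∧
  (∀ e ∈ dl F, mkN F e.2 (mkN F e.1.2 e.2) = e.1.1) ∧
  (∀ e ∈ dl F, ∀ g ∈ dl F, e.1.1 = g.1.1 →
    reach (fun x => mkN F x e.1.1) 14 e.1.2 g.1.2 = true) ∧
  (∀ u, u < 14 → (u, par u) ∈ (dl F).map Prod.fst) ∧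
  (∀ u, u < 14 → par u < 14) ∧
  (∀ u, u < 14 → reach par 14 u 0 = true) ∧
  ((dl F).map Prod.fst).Nodup ∧ (dl F).length = 48

theorem isQuad_of_chk {F : List (ℕ × ℕ × ℕ × ℕ)} {col : ℕ → Bool} {par : ℕ → ℕ}
    (h : Chk F col par) : IsQuad (Finset.range 14) (mkD F) (mkN F) col := by
  obtain ⟨h1, h2, h3, h4, h5, h6, h7, h8, h9, h10, h11, h12, h13⟩ := h
  have key : ∀ x y, (x, y) ∈ mkD F ↔ ∃ e ∈ dl F, e.1.1 = x ∧ e.1.2 = y := by
    intro x y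
    rw [mkD, List.mem_toFinset, List.mem_map]
    constructor
    · rintro ⟨e, he, e2⟩
      exact ⟨e, he, by rw [e2], by rw [e2]⟩
    · rintro ⟨e, he, e1, e2⟩
      exact ⟨e, he, Prod.ext e1 e2⟩
  have hmem : ∀ t, t ∈ (dl F).map Prod.fst → t ∈ mkD F := fun t ht => by
    rw [mkD, List.mem_toFinset]; exact ht
  have sym : ∀ x y, (x, y) ∈ mkD F → (y, x) ∈ mkD F := by
    intro x y hxy
    obtain ⟨e, he, e1, e2⟩ := (key x y).1 hxy
    have := hmem _ (h1 e he)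
    rwa [e1, e2] at this
  have nxd : ∀ x y, (x, y) ∈ mkD F → (y, mkN F x y) ∈ mkD F := by
    intro x y hxy
    obtain ⟨e, he, e1, e2⟩ := (key x y).1 hxy
    have := hmem _ (h5 e he)
    rw [← h4 e he, e1, e2] at this
    exact this
  refine ⟨sym, ?_, ?_, nxd, ?_, ?_, ?_, ?_, ?_⟩
  · intro x y hxy
    obtain ⟨e, he, e1, e2⟩ := (key x y).1 hxy
    rw [Finset.mem_range, ← e1]; exact h2 e he
  · intro x y hxy
    obtain ⟨e, he, e1, e2⟩ := (key x y).1 hxy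
    rw [← e1, ← e2]; exact h3 e he
  · intro x y hxy
    obtain ⟨e, he, e1, e2⟩ := (key x y).1 hxy
    rw [← e1, ← e2, h4 e he]; exact h6 e he
  · intro x y hxy
    obtain ⟨e, he, e1, e2⟩ := (key x y).1 hxy
    rw [← e1, ← e2, h4 e he]; exact h7 e he
  · intro p a b ha hb
    obtain ⟨e, he, e1, e2⟩ := (key p a).1 ha
    obtain ⟨g, hg, g1, g2⟩ := (key p b).1 hb
    have := h8 e he g hg (e1.trans g1.symm)
    rw [e1, e2, g2] at this
    refine reach_spec (T := fun x => (p, x) ∈ mkD F) ?_ 14 a b ha this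
    intro x hx
    exact ⟨nxd x p (sym p x hx), hx, rfl⟩
  · have up : ∀ u, u < 14 → ReflTransGen (fun x y => (x, y) ∈ mkD F) u 0 := by
      intro u hu
      exact reach_spec (T := fun x => x < 14) (fun x hx => ⟨h10 x hx, hmem _ (h9 x hx)⟩) 14 u 0
        hu (h11 u hu)
    have flip : ∀ a b, ReflTransGen (fun x y => (x, y) ∈ mkD F) a b →
        ReflTransGen (fun x y => (x, y) ∈ mkD F) b a := by
      intro a b h
      induction h with
      | refl => exact ReflTransGen.refl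
      | tail _ hs ih => exact ReflTransGen.head (sym _ _ hs) ih
    intro u v hu hv
    exact (up u (Finset.mem_range.1 hu)).trans (flip _ _ (up v (Finset.mem_range.1 hv)))
  · rw [mkD, List.toFinset_card_of_nodup h12, List.length_map, h13]; rfl

instance (F : List (ℕ × ℕ × ℕ × ℕ)) (col : ℕ → Bool) (par : ℕ → ℕ) :
    Decidable (Chk F col par) := by
  unfold Chk; infer_instance

def F0 : List (ℕ × ℕ × ℕ × ℕ) := [(0,4,7,11),(0,11,7,5),(0,5,8,2),(0,2,10,1),(0,1,6,12),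
  (0,12,8,4),(1,3,13,6),(1,10,13,3),(2,8,12,9),(2,9,13,10),(4,8,5,7),(6,13,9,12)]
def F1 : List (ℕ × ℕ × ℕ × ℕ) := [(0,10,6,8),(0,8,7,10),(1,7,3,12),(1,12,2,11),(1,11,9,7),
  (2,4,5,11),(2,12,13,7),(2,7,5,4),(3,7,8,6),(3,6,10,12),(5,7,9,11),(7,13,12,10)]
def F2 : List (ℕ × ℕ × ℕ × ℕ) := [(0,13,5,6),(0,6,5,3),(0,3,8,13),(1,9,5,2),(1,2,5,13),
  (1,13,8,9),(3,5,9,10),(3,10,12,7),(3,7,9,4),(3,4,11,8),(4,9,8,11),(7,12,10,9)]
def F3 : List (ℕ × ℕ × ℕ × ℕ) := [(0,11,6,7),(0,7,6,9),(0,9,3,11),(1,5,10,8),(1,8,10,4),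
  (1,4,12,5),(2,6,4,13),(2,13,11,3),(2,3,9,6),(4,6,11,12),(4,10,11,13),(5,12,11,10)]

def lk (l : List ℕ) (x : ℕ) : ℕ := l.getD x 0
def lkb (l : List ℕ) (x : ℕ) : Bool := Nat.beq (l.getD x 0) 1

set_option maxRecDepth 100000

theorem q0 : IsQuad (Finset.range 14) (mkD F0) (mkN F0)
    (lkb [0, 1, 1, 0, 1, 1, 0, 0, 0, 0, 0, 1, 1, 1]) :=
  isQuad_of_chk (par := lk [4, 0, 0, 1, 0, 0, 1, 4, 4, 2, 2, 0, 0, 10]) (by decide +kernel)
theorem q1 : IsQuad (Finset.range 14) (mkD F1) (mkN F1)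
    (lkb [0, 1, 1, 1, 0, 1, 0, 0, 1, 1, 1, 0, 0, 1]) :=
  isQuad_of_chk (par := lk [10, 12, 12, 6, 2, 7, 10, 10, 0, 7, 0, 1, 10, 12]) (by decide +kernel)
theorem q2 : IsQuad (Finset.range 14) (mkD F2) (mkN F2)
    (lkb [0, 0, 1, 1, 0, 0, 1, 0, 0, 1, 0, 1, 1, 1]) :=
  isQuad_of_chk (par := lk [13, 13, 5, 0, 3, 13, 0, 3, 13, 5, 3, 8, 10, 0]) (by decide +kernel)
theorem q3 : IsQuad (Finset.range 14) (mkD F3) (mkN F3)
    (lkb [0, 0, 1, 0, 1, 1, 0, 1, 1, 1, 0, 1, 0, 0]) :=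
  isQuad_of_chk (par := lk [11, 4, 6, 11, 6, 12, 11, 0, 10, 0, 11, 0, 11, 11])
    (by decide +kernel)

theorem mk_of_chk {F : List (ℕ × ℕ × ℕ × ℕ)} {L : List (ℕ × ℕ × ℕ × ℕ)}
    (h : (∀ f ∈ L, (f.1, f.2.1) ∈ (dl F).map Prod.fst ∧ mkN F f.1 f.2.1 = f.2.2.1 ∧
      mkN F f.2.1 f.2.2.1 = f.2.2.2) ∧ L.Pairwise (fun f g => ∀ x ∈ fd f, x ∉ fd g)) :
    Mk (mkD F) (mkN F) L := by
  refine ⟨fun f hf => ⟨?_, (h.1 f hf).2.1, (h.1 f hf).2.2⟩, h.2.imp ?_⟩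
  · rw [mkD, List.mem_toFinset]; exact (h.1 f hf).1
  · intro f g hfg x hx hx2
    exact hfg x hx hx2

def Cov (A B C D : List (ℕ × ℕ)) : Prop :=
  ∀ x y, x < 14 → y < 14 → x ≠ y → (x, y) ∈ A ∨ (x, y) ∈ B ∨ (x, y) ∈ C ∨ (x, y) ∈ D

instance (A B C D : List (ℕ × ℕ)) : Decidable (Cov A B C D) :=
  decidable_of_iff (∀ x ∈ List.range 14, ∀ y ∈ List.range 14, x ≠ y →
    (x, y) ∈ A ∨ (x, y) ∈ B ∨ (x, y) ∈ C ∨ (x, y) ∈ D)
    ⟨fun h x y hx hy => h x (List.mem_range.2 hx) y (List.mem_range.2 hy),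
      fun h x hx y hy => h x y (List.mem_range.1 hx) (List.mem_range.1 hy)⟩

theorem base : St 14 2 := by
  refine ⟨{0, 8, 9, 10, 11, 12, 13}, {1, 2, 3, 4, 5, 6, 7}, Bool, inferInstance,
    fun i => if i then mkD F3 else mkD F2,
    fun i => if i then (2, 4) else (1, 5), fun i => if i then (3, 6) else (7, 4),
    fun i => if i then (9, 11) else (12, 9), fun i => if i then (10, 13) else (9, 11),
    mkD F0, mkD F1, 6, 1, 3, 13, 12, 10, (0, 8), (0, 8), (7, 4), (2, 5), ?_, ?_, ?_, ?_, ?_, ?_,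
    ?_, ?_, ?_, ?_, ?_, ?_, ?_⟩
  · decide
  · decide
  · decide
  · intro i
    cases i with
    | false =>
      refine ⟨_, _, 9, 2, 9, 3, 10, 7, 8, 4, q2, mk_of_chk ?_⟩
      decide +kernel
    | true =>
      refine ⟨_, _, 6, 13, 9, 2, 3, 0, 11, 4, q3, mk_of_chk ?_⟩
      decide +kernel
  · refine ⟨_, _, 13, 5, 2, 12, 4, q0, mk_of_chk ?_⟩
    decide +kernel
  · refine ⟨_, _, 7, 5, 2, 4, 11, q1, mk_of_chk ?_⟩
    decide +kernel
  · decide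
  · decide
  · have : Cov ((dl F0).map Prod.fst) ((dl F1).map Prod.fst) ((dl F2).map Prod.fst)
        ((dl F3).map Prod.fst) := by decide +kernel
    intro x y hx hy hxy
    simp only [mkD, List.mem_toFinset]
    rcases this x y hx hy hxy with h | h | h | h
    · exact Or.inl h
    · exact Or.inr (Or.inl h)
    · refine Or.inr (Or.inr ⟨false, ?_⟩)
      simpa using h
    · refine Or.inr (Or.inr ⟨true, ?_⟩)
      simpa using h
  · decide
  · decide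
  · decide
  · decide

theorem St.all (k : ℕ) : St (14 + 4 * k) (2 + k) := by
  induction k with
  | zero => exact base
  | succ k ih => exact ih.step

end Pool.Agent.Helper201_BT
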