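import Mathlib

set_option autoImplicit false

namespace Pool.Agent.Helper201_BT

open Relation

/-- An embedded quadrangulation on the finite vertex set `S`: `D` is the set of darts (ordered
pairs of adjacent vertices), and the face to the left of the dart `(u,v)` continues to `nx u v`. -/
structure IsQuad (S : Finset ℕ) (D : Finset (ℕ × ℕ)) (nx : ℕ → ℕ → ℕ) (col : ℕ → Bool) :
    Prop where
  symm : ∀ u v, (u, v) ∈ D → (v, u) ∈ D
  mem : ∀ u v, (u, v) ∈ D → u ∈ S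
  hcol : ∀ u v, (u, v) ∈ D → col u ≠ col v
  nxD : ∀ u v, (u, v) ∈ D → (v, nx u v) ∈ D
  nxne : ∀ u v, (u, v) ∈ D → nx u v ≠ u
  nx3 : ∀ u v, (u, v) ∈ D → nx (nx u v) (nx v (nx u v)) = u
  rot : ∀ p a b, (p, a) ∈ D → (p, b) ∈ D →
    ReflTransGen (fun x y => (p, x) ∈ D ∧ nx x p = y) a b
  conn : ∀ u v, u ∈ S → v ∈ S → ReflTransGen (fun x y => (x, y) ∈ D) u v
  card : D.card + 8 = 4 * S.card

/-- `(p,q,r,s)` is a face. -/
def Fc (D : Finset (ℕ × ℕ)) (nx : ℕ → ℕ → ℕ) (f : ℕ × ℕ × ℕ × ℕ) : Prop :=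
  (f.1, f.2.1) ∈ D ∧ nx f.1 f.2.1 = f.2.2.1 ∧ nx f.2.1 f.2.2.1 = f.2.2.2

def fd (f : ℕ × ℕ × ℕ × ℕ) : List (ℕ × ℕ) :=
  [(f.1, f.2.1), (f.2.1, f.2.2.1), (f.2.2.1, f.2.2.2), (f.2.2.2, f.1)]

/-- a list of pairwise different faces -/
def Mk (D : Finset (ℕ × ℕ)) (nx : ℕ → ℕ → ℕ) (L : List (ℕ × ℕ × ℕ × ℕ)) : Prop :=
  (∀ f ∈ L, Fc D nx f) ∧ L.Pairwise (fun f g => List.Disjoint (fd f) (fd g))

theorem Mk.perm {D : Finset (ℕ × ℕ)} {nx : ℕ → ℕ → ℕ} {L L' : List (ℕ × ℕ × ℕ × ℕ)}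
    (h : Mk D nx L) (hp : L.Perm L') : Mk D nx L' :=
  ⟨fun f hf => h.1 f (hp.mem_iff.2 hf),
    (hp.pairwise_iff (fun {_ _} hxy => List.Disjoint.symm hxy)).1 h.2⟩

theorem Mk.sub {D : Finset (ℕ × ℕ)} {nx : ℕ → ℕ → ℕ} {L L' : List (ℕ × ℕ × ℕ × ℕ)}
    (h : Mk D nx L) (hp : L'.Sublist L) : Mk D nx L' :=
  ⟨fun f hf => h.1 f (hp.subset hf), h.2.sublist hp⟩

section
variable {S : Finset ℕ} {D : Finset (ℕ × ℕ)} {nx : ℕ → ℕ → ℕ} {col : ℕ → Bool}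

theorem IsQuad.nx4 (h : IsQuad S D nx col) {u v : ℕ} (huv : (u, v) ∈ D) :
    nx (nx v (nx u v)) u = v := by
  have h1 := h.nx3 v (nx u v) (h.nxD u v huv)
  rw [h.nx3 u v huv] at h1
  exact h1

theorem IsQuad.ne (h : IsQuad S D nx col) {u v : ℕ} (huv : (u, v) ∈ D) : u ≠ v := by
  intro e
  exact h.hcol u v huv (by rw [e])

theorem IsQuad.mem2 (h : IsQuad S D nx col) {u v : ℕ} (huv : (u, v) ∈ D) : v ∈ S :=
  h.mem v u (h.symm u v huv)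

/-- all facts about a face -/
theorem IsQuad.face (h : IsQuad S D nx col) {p q r s : ℕ} (hf : Fc D nx (p, q, r, s)) :
    (p, q) ∈ D ∧ (q, r) ∈ D ∧ (r, s) ∈ D ∧ (s, p) ∈ D ∧ nx p q = r ∧ nx q r = s ∧
      nx r s = p ∧ nx s p = q := by
  obtain ⟨h1, h2, h3⟩ := hf
  simp only at h1 h2 h3
  have a2 : (q, r) ∈ D := by have := h.nxD p q h1; rwa [h2] at this
  have a3 : (r, s) ∈ D := by have := h.nxD q r a2; rwa [h3] at this
  have a4 : nx r s = p := by have := h.nx3 p q h1; rwa [h2, h3] at this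
  have a5 : (s, p) ∈ D := by have := h.nxD r s a3; rwa [a4] at this
  have a6 : nx s p = q := by have := h.nx4 h1; rwa [h2, h3] at this
  exact ⟨h1, a2, a3, a5, h2, h3, a4, a6⟩

theorem IsQuad.mkRot (h : IsQuad S D nx col) {p q r s : ℕ} {L : List (ℕ × ℕ × ℕ × ℕ)}
    (hM : Mk D nx ((p, q, r, s) :: L)) : Mk D nx ((q, r, s, p) :: L) := by
  obtain ⟨h1, h2⟩ := hM
  have hf := h.face (h1 (p, q, r, s) (by simp))
  obtain ⟨b1, b2, b3, b4, b5, b6, b7, b8⟩ := hf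
  refine ⟨?_, ?_⟩
  · intro f hf
    rcases List.mem_cons.1 hf with rfl | hf
    · exact ⟨b2, b6, b7⟩
    · exact h1 f (List.mem_cons_of_mem _ hf)
  · rw [List.pairwise_cons] at h2 ⊢
    refine ⟨fun g hg => ?_, h2.2⟩
    have := h2.1 g hg
    intro x hx hx2
    apply this _ hx2
    simp only [fd, List.mem_cons, List.not_mem_nil, or_false] at hx ⊢
    tauto

/-- `D` minus the face `(p,q,r,s)` is closed under the face permutation -/
theorem IsQuad.stable (h : IsQuad S D nx col) {p q r s : ℕ} (hf : Fc D nx (p, q, r, s))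
    {x y : ℕ} (hxy : (x, y) ∈ D) (hO : (x, y) ∉ fd (p, q, r, s)) :
    (y, nx x y) ∈ D ∧ (y, nx x y) ∉ fd (p, q, r, s) := by
  obtain ⟨b1, b2, b3, b4, b5, b6, b7, b8⟩ := h.face hf
  refine ⟨h.nxD x y hxy, fun hc => hO ?_⟩
  have h3 := h.nx3 x y hxy
  simp only [fd, List.mem_cons, List.not_mem_nil, or_false, Prod.mk.injEq] at hc ⊢
  rcases hc with ⟨e1, e2⟩ | ⟨e1, e2⟩ | ⟨e1, e2⟩ | ⟨e1, e2⟩
  · subst e1; rw [e2, b5, b6] at h3; right; right; right; exact ⟨h3.symm, rfl⟩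
  · subst e1; rw [e2, b6, b7] at h3; left; exact ⟨h3.symm, rfl⟩
  · subst e1; rw [e2, b7, b8] at h3; right; left; exact ⟨h3.symm, rfl⟩
  · subst e1; rw [e2, b8, b5] at h3; right; right; left; exact ⟨h3.symm, rfl⟩

end

end Pool.Agent.Helper201_BT
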