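import Pool.Agent.Helper201_BT.New

set_option autoImplicit false
set_option maxHeartbeats 4000000

namespace Pool.Agent.Helper201_BT

open Relation

theorem NG.symm {S : Finset ℕ} {D : Finset (ℕ × ℕ)} {P P' Q Q' : ℕ × ℕ}
    (h : NG S D P P' Q Q') {x y : ℕ} (hxy : (x, y) ∈ D) : (y, x) ∈ D := by
  obtain ⟨nx, col, q, s, q', s', x1, y1, x', y', h0, -⟩ := h
  exact h0.symm x y hxy

theorem SG.symm {S : Finset ℕ} {D : Finset (ℕ × ℕ)} {p q r : ℕ} {Q Q' : ℕ × ℕ}
    (h : SG S D p q r Q Q') {x y : ℕ} (hxy : (x, y) ∈ D) : (y, x) ∈ D := by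
  obtain ⟨nx, col, s, x1, y1, x', y', h0, -⟩ := h
  exact h0.symm x y hxy

/-- the state of the construction: `K_n` on `0, …, n-1` is the union of the two special
quadrangulations `D1, D2` and of the `m` ordinary ones `D i` -/
def St (n m : ℕ) : Prop :=
  ∃ (X Y : Finset ℕ) (ι : Type) (_ : Fintype ι) (D : ι → Finset (ℕ × ℕ))
    (P P' Q Q' : ι → ℕ × ℕ) (D1 D2 : Finset (ℕ × ℕ)) (p q r u v w : ℕ) (E E' F F' : ℕ × ℕ),
    Disjoint X Y ∧ X ∪ Y = Finset.range n ∧ Fintype.card ι = m ∧
    (∀ i, NG (Finset.range n) (D i) (P i) (P' i) (Q i) (Q' i)) ∧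
    SG (Finset.range n) D1 p q r E E' ∧ SG (Finset.range n) D2 u v w F F' ∧
    q ∈ Y ∧ v ∈ X ∧
    (∀ x y, x < n → y < n → x ≠ y → (x, y) ∈ D1 ∨ (x, y) ∈ D2 ∨ ∃ i, (x, y) ∈ D i) ∧
    (∀ y ∈ Y, y = p ∨ y = r ∨ y = F.1 ∨ y = F.2 ∨ ∃ i, y = (P i).1 ∨ y = (P i).2) ∧
    (∀ y ∈ Y, y = q ∨ y = F'.1 ∨ y = F'.2 ∨ ∃ i, y = (P' i).1 ∨ y = (P' i).2) ∧
    (∀ x ∈ X, x = u ∨ x = w ∨ x = E.1 ∨ x = E.2 ∨ ∃ i, x = (Q i).1 ∨ x = (Q i).2) ∧
    (∀ x ∈ X, x = v ∨ x = E'.1 ∨ x = E'.2 ∨ ∃ i, x = (Q' i).1 ∨ x = (Q' i).2)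

theorem St.step {n m : ℕ} (h : St n m) : St (n + 4) (m + 1) := by
  obtain ⟨X, Y, ι, _, D, P, P', Q, Q', D1, D2, p, q, r, u, v, w, E, E', F, F', hXY, hU, hcard,
    hN, hS1, hS2, hqY, hvX, hcov, ca, cb, cc, cd⟩ := h
  have hS : insert (n + 3) (insert (n + 2) (insert (n + 1) (insert n (Finset.range n))))
      = Finset.range (n + 4) := by
    ext z; simp only [Finset.mem_insert, Finset.mem_range]; omega
  have hS' : insert (n + 1) (insert n (insert (n + 3) (insert (n + 2) (Finset.range n))))
      = Finset.range (n + 4) := by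
    ext z; simp only [Finset.mem_insert, Finset.mem_range]; omega
  have i1 : n ∉ Finset.range n := by simp
  have i2 : n + 1 ∉ insert n (Finset.range n) := by
    simp only [Finset.mem_insert, Finset.mem_range]; omega
  have i3 : n + 2 ∉ insert (n + 1) (insert n (Finset.range n)) := by
    simp only [Finset.mem_insert, Finset.mem_range]; omega
  have i4 : n + 3 ∉ insert (n + 2) (insert (n + 1) (insert n (Finset.range n))) := by
    simp only [Finset.mem_insert, Finset.mem_range]; omega
  have j1 : n + 2 ∉ Finset.range n := by simp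
  have j2 : n + 3 ∉ insert (n + 2) (Finset.range n) := by
    simp only [Finset.mem_insert, Finset.mem_range]; omega
  have j3 : n ∉ insert (n + 3) (insert (n + 2) (Finset.range n)) := by
    simp only [Finset.mem_insert, Finset.mem_range]; omega
  have j4 : n + 1 ∉ insert n (insert (n + 3) (insert (n + 2) (Finset.range n))) := by
    simp only [Finset.mem_insert, Finset.mem_range]; omega
  choose G hG hGs a1 a2 b1 b2 c1 c2 d1 d2 using fun i => (hN i).step i1 i2 i3 i4
  obtain ⟨D1', g1, gs1, e1, e2, e3, e4, e5, e6, e7, e8⟩ := hS1.step i1 i2 i3 i4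
  obtain ⟨D2', g2, gs2, f1, f2, f3, f4, f5, f6, f7, f8⟩ := hS2.step j1 j2 j3 j4
  have hnU : ∀ k, n + k ∉ X ∪ Y := by
    intro k; rw [hU, Finset.mem_range]; omega
  obtain ⟨D0, g0, k1, k2, k3, k4, kX, kY⟩ := new_graph (X := X) (Y := Y) (a := n) (b := n + 1)
    (c := n + 2) (d := n + 3) (v := v) (q := q) (by omega) (by omega) (by omega) (by omega)
    (by omega) (by omega) hvX hqY hXY (hnU 0) (hnU 1) (hnU 2) (hnU 3)
  rw [hU] at g0
  rw [hS] at g0 g1 hG
  rw [hS'] at g2
  have hXn : ∀ x ∈ X, x < n := fun x hx => by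
    rw [← Finset.mem_range, ← hU]; exact Finset.mem_union_left _ hx
  have hYn : ∀ x ∈ Y, x < n := fun x hx => by
    rw [← Finset.mem_range, ← hU]; exact Finset.mem_union_right _ hx
  refine ⟨insert (n + 3) (insert (n + 2) X), insert (n + 1) (insert n Y), Option ι, inferInstance,
    fun o => o.elim D0 G, fun o => o.elim (n, n + 1) P, fun o => o.elim (q, n + 1) P',
    fun o => o.elim (n + 2, n + 3) Q, fun o => o.elim (v, n + 3) Q', D1', D2', p, n, r, u, n + 2,
    w, E, E', F, F', ?_, ?_, ?_, ?_, g1, g2, ?_, ?_, ?_, ?_, ?_, ?_, ?_⟩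
  · rw [Finset.disjoint_left] at hXY ⊢
    intro x hx hy
    simp only [Finset.mem_insert] at hx hy
    rcases hx with rfl | rfl | hx
    · rcases hy with hy | hy | hy
      · omega
      · omega
      · have := hYn _ hy; omega
    · rcases hy with hy | hy | hy
      · omega
      · omega
      · have := hYn _ hy; omega
    · rcases hy with rfl | rfl | hy
      · have := hXn _ hx; omega
      · have := hXn _ hx; omega
      · exact hXY hx hy
  · ext z
    have := Finset.ext_iff.1 hU z
    simp only [Finset.mem_union, Finset.mem_insert, Finset.mem_range] at this ⊢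
    constructor
    · rintro ((h | h | h) | (h | h | h))
      · omega
      · omega
      · have := hXn _ h; omega
      · omega
      · omega
      · have := hYn _ h; omega
    · intro h
      by_cases hz : z < n
      · rcases this.2 hz with h1 | h1
        · exact Or.inl (Or.inr (Or.inr h1))
        · exact Or.inr (Or.inr (Or.inr h1))
      · have : z = n ∨ z = n + 1 ∨ z = n + 2 ∨ z = n + 3 := by omega
        rcases this with e | e | e | e
        · exact Or.inr (Or.inr (Or.inl e))
        · exact Or.inr (Or.inl e)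
        · exact Or.inl (Or.inr (Or.inl e))
        · exact Or.inl (Or.inl e)
  · rw [Fintype.card_option, hcard]
  · intro o
    cases o with
    | none => exact g0
    | some i => exact hG i
  · simp
  · simp
  · -- coverage
    set C : ℕ → ℕ → Prop := fun x y => (x, y) ∈ D1' ∨ (x, y) ∈ D2' ∨
      ∃ o : Option ι, (x, y) ∈ (o.elim D0 G : Finset (ℕ × ℕ)) with hC
    have C1 : ∀ {x y}, (x, y) ∈ D1' → C x y := fun h => Or.inl h
    have C2 : ∀ {x y}, (x, y) ∈ D2' → C x y := fun h => Or.inr (Or.inl h)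
    have C0 : ∀ {x y}, (x, y) ∈ D0 → C x y := fun h => Or.inr (Or.inr ⟨none, h⟩)
    have CG : ∀ {x y} (i : ι), (x, y) ∈ G i → C x y := fun i h => Or.inr (Or.inr ⟨some i, h⟩)
    have Cs : ∀ {x y}, C x y → C y x := by
      intro x y h
      rcases h with h | h | ⟨o, h⟩
      · exact C1 (g1.symm h)
      · exact C2 (g2.symm h)
      · cases o with
        | none => exact C0 (g0.symm h)
        | some i => exact CG i ((hG i).symm h)
    have Ca : ∀ y, y < n → C n y := by
      intro y hy
      have : y ∈ X ∪ Y := by rw [hU, Finset.mem_range]; exact hy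
      rcases Finset.mem_union.1 this with hx | hx
      · exact Cs (C0 (kX y hx).1)
      · rcases ca y hx with e | e | e | e | ⟨i, e | e⟩
        · rw [e]; exact C1 e1
        · rw [e]; exact C1 e2
        · rw [e]; exact C2 f5
        · rw [e]; exact C2 f6
        · rw [e]; exact CG i (a1 i)
        · rw [e]; exact CG i (a2 i)
    have Cb : ∀ y, y < n → C (n + 1) y := by
      intro y hy
      have : y ∈ X ∪ Y := by rw [hU, Finset.mem_range]; exact hy
      rcases Finset.mem_union.1 this with hx | hx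
      · exact Cs (C0 (kX y hx).2)
      · rcases cb y hx with e | e | e | ⟨i, e | e⟩
        · rw [e]; exact C1 e4
        · rw [e]; exact C2 f7
        · rw [e]; exact C2 f8
        · rw [e]; exact CG i (b1 i)
        · rw [e]; exact CG i (b2 i)
    have Cc : ∀ y, y < n → C (n + 2) y := by
      intro y hy
      have : y ∈ X ∪ Y := by rw [hU, Finset.mem_range]; exact hy
      rcases Finset.mem_union.1 this with hx | hx
      · rcases cc y hx with e | e | e | e | ⟨i, e | e⟩
        · rw [e]; exact C2 f1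
        · rw [e]; exact C2 f2
        · rw [e]; exact C1 e5
        · rw [e]; exact C1 e6
        · rw [e]; exact CG i (c1 i)
        · rw [e]; exact CG i (c2 i)
      · exact Cs (C0 (kY y hx).1)
    have Cd : ∀ y, y < n → C (n + 3) y := by
      intro y hy
      have : y ∈ X ∪ Y := by rw [hU, Finset.mem_range]; exact hy
      rcases Finset.mem_union.1 this with hx | hx
      · rcases cd y hx with e | e | e | ⟨i, e | e⟩
        · rw [e]; exact C2 f4
        · rw [e]; exact C1 e7
        · rw [e]; exact C1 e8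
        · rw [e]; exact CG i (d1 i)
        · rw [e]; exact CG i (d2 i)
      · exact Cs (C0 (kY y hx).2)
    have Cab : C (n + 1) n := C1 e3
    have Ccd : C (n + 3) (n + 2) := C2 f3
    have Cac : C n (n + 2) := C0 k1
    have Cbc : C (n + 1) (n + 2) := C0 k2
    have Cbd : C (n + 1) (n + 3) := C0 k3
    have Cad : C n (n + 3) := C0 k4
    intro x y hx hy hxy
    show C x y
    have cx : x < n ∨ x = n ∨ x = n + 1 ∨ x = n + 2 ∨ x = n + 3 := by omega
    have cy : y < n ∨ y = n ∨ y = n + 1 ∨ y = n + 2 ∨ y = n + 3 := by omega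
    rcases cx with hx1 | hx1 | hx1 | hx1 | hx1
    · rcases cy with hy1 | hy1 | hy1 | hy1 | hy1
      · rcases hcov x y hx1 hy1 hxy with h | h | ⟨i, h⟩
        · exact C1 (gs1 h)
        · exact C2 (gs2 h)
        · exact CG i (hGs i h)
      · rw [hy1]; exact Cs (Ca x hx1)
      · rw [hy1]; exact Cs (Cb x hx1)
      · rw [hy1]; exact Cs (Cc x hx1)
      · rw [hy1]; exact Cs (Cd x hx1)
    · rw [hx1] at hxy ⊢
      rcases cy with hy1 | hy1 | hy1 | hy1 | hy1
      · exact Ca y hy1
      · exact absurd hy1.symm hxy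
      · rw [hy1]; exact Cs Cab
      · rw [hy1]; exact Cac
      · rw [hy1]; exact Cad
    · rw [hx1] at hxy ⊢
      rcases cy with hy1 | hy1 | hy1 | hy1 | hy1
      · exact Cb y hy1
      · rw [hy1]; exact Cab
      · exact absurd hy1.symm hxy
      · rw [hy1]; exact Cbc
      · rw [hy1]; exact Cbd
    · rw [hx1] at hxy ⊢
      rcases cy with hy1 | hy1 | hy1 | hy1 | hy1
      · exact Cc y hy1
      · rw [hy1]; exact Cs Cac
      · rw [hy1]; exact Cs Cbc
      · exact absurd hy1.symm hxy
      · rw [hy1]; exact Cs Ccd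
    · rw [hx1] at hxy ⊢
      rcases cy with hy1 | hy1 | hy1 | hy1 | hy1
      · exact Cd y hy1
      · rw [hy1]; exact Cs Cad
      · rw [hy1]; exact Cs Cbd
      · rw [hy1]; exact Ccd
      · exact absurd hy1.symm hxy
  · intro y hy
    simp only [Finset.mem_insert] at hy
    rcases hy with e | e | hy
    · exact Or.inr (Or.inr (Or.inr (Or.inr ⟨none, Or.inr e⟩)))
    · exact Or.inr (Or.inr (Or.inr (Or.inr ⟨none, Or.inl e⟩)))
    · rcases ca y hy with e | e | e | e | ⟨i, e⟩
      · exact Or.inl e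
      · exact Or.inr (Or.inl e)
      · exact Or.inr (Or.inr (Or.inl e))
      · exact Or.inr (Or.inr (Or.inr (Or.inl e)))
      · exact Or.inr (Or.inr (Or.inr (Or.inr ⟨some i, e⟩)))
  · intro y hy
    simp only [Finset.mem_insert] at hy
    rcases hy with e | e | hy
    · exact Or.inr (Or.inr (Or.inr ⟨none, Or.inr e⟩))
    · exact Or.inl e
    · rcases cb y hy with e | e | e | ⟨i, e⟩
      · exact Or.inr (Or.inr (Or.inr ⟨none, Or.inl e⟩))
      · exact Or.inr (Or.inl e)
      · exact Or.inr (Or.inr (Or.inl e))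
      · exact Or.inr (Or.inr (Or.inr ⟨some i, e⟩))
  · intro y hy
    simp only [Finset.mem_insert] at hy
    rcases hy with e | e | hy
    · exact Or.inr (Or.inr (Or.inr (Or.inr ⟨none, Or.inr e⟩)))
    · exact Or.inr (Or.inr (Or.inr (Or.inr ⟨none, Or.inl e⟩)))
    · rcases cc y hy with e | e | e | e | ⟨i, e⟩
      · exact Or.inl e
      · exact Or.inr (Or.inl e)
      · exact Or.inr (Or.inr (Or.inl e))
      · exact Or.inr (Or.inr (Or.inr (Or.inl e)))
      · exact Or.inr (Or.inr (Or.inr (Or.inr ⟨some i, e⟩)))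
  · intro y hy
    simp only [Finset.mem_insert] at hy
    rcases hy with e | e | hy
    · exact Or.inr (Or.inr (Or.inr ⟨none, Or.inr e⟩))
    · exact Or.inl e
    · rcases cd y hy with e | e | e | ⟨i, e⟩
      · exact Or.inr (Or.inr (Or.inr ⟨none, Or.inl e⟩))
      · exact Or.inr (Or.inl e)
      · exact Or.inr (Or.inr (Or.inl e))
      · exact Or.inr (Or.inr (Or.inr ⟨some i, e⟩))

end Pool.Agent.Helper201_BT
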