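import Pool.Agent.Helper201_BT.Core

set_option autoImplicit false
set_option maxHeartbeats 4000000

namespace Pool.Agent.Helper201_BT

open Relation

def insD (D : Finset (ℕ × ℕ)) (p r v : ℕ) : Finset (ℕ × ℕ) :=
  insert (v, p) (insert (p, v) (insert (v, r) (insert (r, v) D)))

def insN (nx : ℕ → ℕ → ℕ) (p q r s v : ℕ) : ℕ → ℕ → ℕ := fun x y =>
  if x = v ∧ y = p then q else if x = s ∧ y = p then v else if x = q ∧ y = r then v
  else if x = v ∧ y = r then s else if x = p ∧ y = v then r else if x = r ∧ y = v then p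
  else nx x y

theorem mem_insD {D : Finset (ℕ × ℕ)} {p r v x y : ℕ} : (x, y) ∈ insD D p r v ↔
    (x = v ∧ y = p) ∨ (x = p ∧ y = v) ∨ (x = v ∧ y = r) ∨ (x = r ∧ y = v) ∨ (x, y) ∈ D := by
  simp [insD]

theorem insert_vertex {S : Finset ℕ} {D : Finset (ℕ × ℕ)} {nx : ℕ → ℕ → ℕ} {col : ℕ → Bool}
    (h : IsQuad S D nx col) {p q r s v : ℕ} {L : List (ℕ × ℕ × ℕ × ℕ)}
    (hM : Mk D nx ((p, q, r, s) :: L)) (hv : v ∉ S) :
    ∃ (D' : Finset (ℕ × ℕ)) (nx' : ℕ → ℕ → ℕ) (col' : ℕ → Bool),
      IsQuad (insert v S) D' nx' col' ∧ D ⊆ D' ∧ (v, p) ∈ D' ∧ (v, r) ∈ D' ∧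
      Mk D' nx' ((p, q, r, v) :: (p, v, r, s) :: L) := by
  have hF := hM.1 (p, q, r, s) (by simp)
  obtain ⟨b1, b2, b3, b4, b5, b6, b7, b8⟩ := h.face hF
  have hpq : p ≠ q := h.ne b1
  have hqr : q ≠ r := h.ne b2
  have hrs : r ≠ s := h.ne b3
  have hsp : s ≠ p := h.ne b4
  have hpr : r ≠ p := by have := h.nxne p q b1; rwa [b5] at this
  have hqs : s ≠ q := by have := h.nxne q r b2; rwa [b6] at this
  have hpS := h.mem _ _ b1
  have hqS := h.mem _ _ b2
  have hrS := h.mem _ _ b3
  have hsS := h.mem _ _ b4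
  have nv : ∀ x, x ∈ S → x ≠ v := fun x hx e => hv (e ▸ hx)
  have vp := nv p hpS
  have vq := nv q hqS
  have vr := nv r hrS
  have vs := nv s hsS
  have hDv1 : ∀ x, (v, x) ∉ D := fun x hx => hv (h.mem _ _ hx)
  have hDv2 : ∀ x, (x, v) ∉ D := fun x hx => hv (h.mem2 hx)
  set N := insN nx p q r s v with hN
  have A1 : N p q = r := by
    simp [hN, insN, vp, vq, hpq, hpq.symm, hqr, hpr.symm, hsp.symm, b5]
  have A2 : N q r = v := by
    simp [hN, insN, hpq.symm, hqr, vq, hpr, hqs.symm]
  have A3 : N r v = p := by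
    simp [hN, insN, hpr, vr, vp.symm, hrs, hqr.symm, vr.symm]
  have A4 : N v p = q := by simp [hN, insN]
  have B1 : N p v = r := by
    simp [hN, insN, vp, vp.symm, hpq, vr.symm]
  have B2 : N v r = s := by
    simp [hN, insN, hpr, vs.symm, vq.symm]
  have B3 : N r s = p := by
    simp [hN, insN, vr, hsp, hrs.symm, vs, b7]
  have B4 : N s p = v := by
    simp [hN, insN, vs]
  have hmem : ∀ x y, (x, y) ∈ insD D p r v ↔
      ((x, y) ∈ ([(p, q), (q, r), (r, v), (v, p), (p, v), (v, r), (r, s), (s, p)] :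
        List (ℕ × ℕ)) ∨ ((x, y) ∈ D ∧ (x, y) ∉ fd (p, q, r, s))) := by
    intro x y
    rw [mem_insD]
    constructor
    · rintro (⟨rfl, rfl⟩ | ⟨rfl, rfl⟩ | ⟨rfl, rfl⟩ | ⟨rfl, rfl⟩ | hD)
      · left; simp
      · left; simp
      · left; simp
      · left; simp
      · by_cases c : (x, y) ∈ fd (p, q, r, s)
        · left
          simp only [fd, List.mem_cons, List.not_mem_nil, or_false] at c
          rcases c with c | c | c | c <;> rw [c] <;> simp
        · right; exact ⟨hD, c⟩
    · rintro (hL | ⟨hD, -⟩)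
      · simp only [List.mem_cons, List.not_mem_nil, or_false, Prod.mk.injEq] at hL
        rcases hL with ⟨rfl, rfl⟩ | ⟨rfl, rfl⟩ | ⟨rfl, rfl⟩ | ⟨rfl, rfl⟩ | ⟨rfl, rfl⟩ |
          ⟨rfl, rfl⟩ | ⟨rfl, rfl⟩ | ⟨rfl, rfl⟩
        · exact Or.inr (Or.inr (Or.inr (Or.inr b1)))
        · exact Or.inr (Or.inr (Or.inr (Or.inr b2)))
        · exact Or.inr (Or.inr (Or.inr (Or.inl ⟨rfl, rfl⟩)))
        · exact Or.inl ⟨rfl, rfl⟩
        · exact Or.inr (Or.inl ⟨rfl, rfl⟩)
        · exact Or.inr (Or.inr (Or.inl ⟨rfl, rfl⟩))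
        · exact Or.inr (Or.inr (Or.inr (Or.inr b3)))
        · exact Or.inr (Or.inr (Or.inr (Or.inr b4)))
      · exact Or.inr (Or.inr (Or.inr (Or.inr hD)))
  have hold : ∀ x y, (x, y) ∈ D → (x, y) ∉ fd (p, q, r, s) → N x y = nx x y := by
    intro x y hD hO
    have x1 : x ≠ v := nv x (h.mem _ _ hD)
    have y1 : y ≠ v := nv y (h.mem2 hD)
    simp only [fd, List.mem_cons, List.not_mem_nil, or_false, Prod.mk.injEq, not_or] at hO
    simp [hN, insN, x1, y1, hO.2.1, hO.2.2.2]
  have hst : ∀ x y, (x, y) ∈ D → (x, y) ∉ fd (p, q, r, s) →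
      (y, nx x y) ∈ D ∧ (y, nx x y) ∉ fd (p, q, r, s) := fun x y h1 h2 => h.stable hF h1 h2
  have hsub : D ⊆ insD D p r v := by
    intro x hx
    obtain ⟨x1, x2⟩ := x
    rw [mem_insD]; tauto
  refine ⟨insD D p r v, N, fun z => if z = v then !(col p) else col z, ?_, hsub, ?_, ?_, ?_⟩
  · have hcpr : col p = col r := by
      have c1 := h.hcol _ _ b1
      have c2 := h.hcol _ _ b2
      revert c1 c2
      cases col p <;> cases col q <;> cases col r <;> simp
    refine ⟨?_, ?_, ?_, ?_, ?_, ?_, ?_, ?_, ?_⟩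
    · -- symm
      intro x y hxy
      rw [mem_insD] at hxy ⊢
      rcases hxy with ⟨rfl, rfl⟩ | ⟨rfl, rfl⟩ | ⟨rfl, rfl⟩ | ⟨rfl, rfl⟩ | hD
      · tauto
      · tauto
      · tauto
      · tauto
      · have := h.symm _ _ hD
        tauto
    · -- mem
      intro x y hxy
      rw [mem_insD] at hxy
      rw [Finset.mem_insert]
      rcases hxy with ⟨rfl, rfl⟩ | ⟨rfl, rfl⟩ | ⟨rfl, rfl⟩ | ⟨rfl, rfl⟩ | hD
      · tauto
      · tauto
      · tauto
      · tauto
      · exact Or.inr (h.mem _ _ hD)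
    · -- colours
      intro x y hxy
      rw [mem_insD] at hxy
      rcases hxy with ⟨rfl, rfl⟩ | ⟨rfl, rfl⟩ | ⟨rfl, rfl⟩ | ⟨rfl, rfl⟩ | hD
      · simp [vp]
      · simp [vp]
      · simp [vr, hcpr]
      · simp [vr, hcpr]
      · have x1 : x ≠ v := nv x (h.mem _ _ hD)
        have y1 : y ≠ v := nv y (h.mem2 hD)
        simp only [x1, y1, if_false]
        exact h.hcol _ _ hD
    · -- nxD
      intro x y hxy
      rw [hmem] at hxy
      rcases hxy with hL | ⟨hD, hO⟩
      · simp only [List.mem_cons, List.not_mem_nil, or_false, Prod.mk.injEq] at hL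
        rw [mem_insD]
        rcases hL with ⟨rfl, rfl⟩ | ⟨rfl, rfl⟩ | ⟨rfl, rfl⟩ | ⟨rfl, rfl⟩ | ⟨rfl, rfl⟩ |
          ⟨rfl, rfl⟩ | ⟨rfl, rfl⟩ | ⟨rfl, rfl⟩
        · rw [A1]; tauto
        · rw [A2]; tauto
        · rw [A3]; tauto
        · rw [A4]; tauto
        · rw [B1]; tauto
        · rw [B2]; tauto
        · rw [B3]; tauto
        · rw [B4]; tauto
      · rw [hold x y hD hO]
        exact hsub (hst x y hD hO).1
    · -- nxne
      intro x y hxy
      rw [hmem] at hxy
      rcases hxy with hL | ⟨hD, hO⟩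
      · simp only [List.mem_cons, List.not_mem_nil, or_false, Prod.mk.injEq] at hL
        rcases hL with ⟨rfl, rfl⟩ | ⟨rfl, rfl⟩ | ⟨rfl, rfl⟩ | ⟨rfl, rfl⟩ | ⟨rfl, rfl⟩ |
          ⟨rfl, rfl⟩ | ⟨rfl, rfl⟩ | ⟨rfl, rfl⟩
        · rw [A1]; exact hpr
        · rw [A2]; exact vq.symm
        · rw [A3]; exact hpr.symm
        · rw [A4]; exact vq
        · rw [B1]; exact hpr
        · rw [B2]; exact vs
        · rw [B3]; exact hpr.symm
        · rw [B4]; exact vs.symm
      · rw [hold x y hD hO]
        exact h.nxne x y hD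
    · -- nx3
      intro x y hxy
      rw [hmem] at hxy
      rcases hxy with hL | ⟨hD, hO⟩
      · simp only [List.mem_cons, List.not_mem_nil, or_false, Prod.mk.injEq] at hL
        rcases hL with ⟨rfl, rfl⟩ | ⟨rfl, rfl⟩ | ⟨rfl, rfl⟩ | ⟨rfl, rfl⟩ | ⟨rfl, rfl⟩ |
          ⟨rfl, rfl⟩ | ⟨rfl, rfl⟩ | ⟨rfl, rfl⟩
        · rw [A1, A2, A3]
        · rw [A2, A3, A4]
        · rw [A3, A4, A1]
        · rw [A4, A1, A2]
        · rw [B1, B2, B3]
        · rw [B2, B3, B4]
        · rw [B3, B4, B1]
        · rw [B4, B1, B2]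
      · rw [hold x y hD hO]
        obtain ⟨c1, c2⟩ := hst x y hD hO
        rw [hold _ _ c1 c2]
        obtain ⟨c3, c4⟩ := hst _ _ c1 c2
        rw [hold _ _ c3 c4]
        exact h.nx3 x y hD
    · -- rot
      set R' : ℕ → ℕ → ℕ → Prop := fun z x y => (z, x) ∈ insD D p r v ∧ N x z = y with hR'
      have stepsR : ∀ z x y, (z, x) ∈ D → nx x z = y → ReflTransGen (R' z) x y := by
        intro z x y hzx hy
        by_cases c1 : x = s ∧ z = p
        · obtain ⟨rfl, rfl⟩ := c1
          rw [b8] at hy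
          subst hy
          refine ReflTransGen.tail (ReflTransGen.single (b := v) ?_) ?_
          · exact ⟨hsub hzx, B4⟩
          · exact ⟨by rw [mem_insD]; tauto, A4⟩
        by_cases c2 : x = q ∧ z = r
        · obtain ⟨rfl, rfl⟩ := c2
          rw [b6] at hy
          subst hy
          refine ReflTransGen.tail (ReflTransGen.single (b := v) ?_) ?_
          · exact ⟨hsub hzx, A2⟩
          · exact ⟨by rw [mem_insD]; tauto, B2⟩
        have x1 : x ≠ v := nv x (h.mem2 hzx)
        have z1 : z ≠ v := nv z (h.mem _ _ hzx)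
        refine ReflTransGen.single ⟨hsub hzx, ?_⟩
        rw [← hy]
        simp [hN, insN, x1, z1, c1, c2]
      have oldR : ∀ z a b, (z, a) ∈ D → (z, b) ∈ D → ReflTransGen (R' z) a b := by
        intro z a b ha hb
        have h1 := h.rot z a b ha hb
        clear ha hb
        induction h1 with
        | refl => exact ReflTransGen.refl
        | tail _ hst' ih => exact ih.trans (stepsR _ _ _ hst'.1 hst'.2)
      have toOld : ∀ z a, z ≠ v → (z, a) ∈ insD D p r v →
          ∃ a0, (z, a0) ∈ D ∧ ReflTransGen (R' z) a a0 := by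
        intro z a hz ha
        have ha' := ha
        rw [mem_insD] at ha
        rcases ha with ⟨e, -⟩ | ⟨e1, e2⟩ | ⟨e, -⟩ | ⟨e1, e2⟩ | hD
        · exact absurd e hz
        · refine ⟨q, e1 ▸ b1, ReflTransGen.single ⟨ha', ?_⟩⟩
          rw [e1, e2]; exact A4
        · exact absurd e hz
        · refine ⟨s, e1 ▸ b3, ReflTransGen.single ⟨ha', ?_⟩⟩
          rw [e1, e2]; exact B2
        · exact ⟨a, hD, ReflTransGen.refl⟩
      have fromOld : ∀ z a, z ≠ v → (z, a) ∈ insD D p r v →
          ∃ a0, (z, a0) ∈ D ∧ ReflTransGen (R' z) a0 a := by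
        intro z a hz ha
        rw [mem_insD] at ha
        rcases ha with ⟨e, -⟩ | ⟨e1, e2⟩ | ⟨e, -⟩ | ⟨e1, e2⟩ | hD
        · exact absurd e hz
        · refine ⟨s, e1 ▸ h.symm _ _ b4, ReflTransGen.single ⟨?_, ?_⟩⟩
          · rw [e1]; exact hsub (h.symm _ _ b4)
          · rw [e1, e2]; exact B4
        · exact absurd e hz
        · refine ⟨q, e1 ▸ h.symm _ _ b2, ReflTransGen.single ⟨?_, ?_⟩⟩
          · rw [e1]; exact hsub (h.symm _ _ b2)
          · rw [e1, e2]; exact A2
        · exact ⟨a, hD, ReflTransGen.refl⟩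
      intro z a b ha hb
      by_cases hz : z = v
      · subst hz
        have hp : (z, p) ∈ insD D p r z := by rw [mem_insD]; tauto
        have hr : (z, r) ∈ insD D p r z := by rw [mem_insD]; tauto
        have pr : ReflTransGen (R' z) p r := ReflTransGen.single ⟨hp, B1⟩
        have rp : ReflTransGen (R' z) r p := ReflTransGen.single ⟨hr, A3⟩
        have key : ∀ w, (z, w) ∈ insD D p r z → w = p ∨ w = r := by
          intro w hw
          rw [mem_insD] at hw
          rcases hw with ⟨-, e⟩ | ⟨e, -⟩ | ⟨-, e⟩ | ⟨e, -⟩ | hD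
          · exact Or.inl e
          · exact absurd e.symm vp
          · exact Or.inr e
          · exact absurd e.symm vr
          · exact absurd hD (hDv1 w)
        rcases key a ha with rfl | rfl <;> rcases key b hb with rfl | rfl
        · exact ReflTransGen.refl
        · exact pr
        · exact rp
        · exact ReflTransGen.refl
      · obtain ⟨a0, h1, h2⟩ := toOld z a hz ha
        obtain ⟨c0, h3, h4⟩ := fromOld z b hz hb
        exact (h2.trans (oldR z a0 c0 h1 h3)).trans h4
    · -- conn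
      have hadj : ∀ x y, (x, y) ∈ D → ReflTransGen (fun x y => (x, y) ∈ insD D p r v) x y :=
        fun x y hxy => ReflTransGen.single (hsub hxy)
      have hold2 : ∀ x y, x ∈ S → y ∈ S →
          ReflTransGen (fun x y => (x, y) ∈ insD D p r v) x y := by
        intro x y hx hy
        have h1 := h.conn x y hx hy
        clear hx hy
        induction h1 with
        | refl => exact ReflTransGen.refl
        | tail _ hs ih => exact ih.tail (hsub hs)
      have hvp : (v, p) ∈ insD D p r v := by rw [mem_insD]; tauto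
      have hpv : (p, v) ∈ insD D p r v := by rw [mem_insD]; tauto
      intro x y hx hy
      rcases Finset.mem_insert.1 hx with ex | hx1
      · rcases Finset.mem_insert.1 hy with ey | hy1
        · rw [ex, ey]
        · rw [ex]; exact (ReflTransGen.single hvp).trans (hold2 p y hpS hy1)
      · rcases Finset.mem_insert.1 hy with ey | hy1
        · rw [ey]; exact (hold2 x p hx1 hpS).trans (ReflTransGen.single hpv)
        · exact hold2 x y hx1 hy1
    · -- card
      have c := h.card
      have e1 : (r, v) ∉ D := hDv2 r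
      have e2 : (v, r) ∉ insert (r, v) D := by
        simp [hDv1 r, vr, vr.symm]
      have e3 : (p, v) ∉ insert (v, r) (insert (r, v) D) := by
        simp [hDv2 p, vp, hpr.symm]
      have e4 : (v, p) ∉ insert (p, v) (insert (v, r) (insert (r, v) D)) := by
        simp [hDv1 p, vp.symm, hpr.symm, vr.symm]
      rw [insD, Finset.card_insert_of_notMem e4, Finset.card_insert_of_notMem e3,
        Finset.card_insert_of_notMem e2, Finset.card_insert_of_notMem e1,
        Finset.card_insert_of_notMem hv]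
      omega
  · rw [mem_insD]; tauto
  · rw [mem_insD]; tauto
  · -- marks
    obtain ⟨hM1, hM2⟩ := hM
    rw [List.pairwise_cons] at hM2
    have hdisj : ∀ g ∈ L, ∀ x ∈ fd g, x ∈ D ∧ x ∉ fd (p, q, r, s) := by
      intro g hg x hx
      have hgF := hM1 g (List.mem_cons_of_mem _ hg)
      obtain ⟨g1, g2, g3, g4⟩ := g
      obtain ⟨a1, a2, a3, a4, -⟩ := h.face hgF
      refine ⟨?_, fun hc => hM2.1 _ hg hc hx⟩
      simp only [fd, List.mem_cons, List.not_mem_nil, or_false] at hx
      rcases hx with rfl | rfl | rfl | rfl <;> assumption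
    refine ⟨?_, ?_⟩
    · intro f hf
      rcases List.mem_cons.1 hf with rfl | hf
      · exact ⟨hsub b1, A1, A2⟩
      rcases List.mem_cons.1 hf with rfl | hf
      · refine ⟨?_, B1, B2⟩
        rw [mem_insD]; tauto
      · have hgF := hM1 f (List.mem_cons_of_mem _ hf)
        obtain ⟨g1, g2, g3, g4⟩ := f
        have d1 := hdisj _ hf (g1, g2) (by simp [fd])
        have d2 := hdisj _ hf (g2, g3) (by simp [fd])
        obtain ⟨a1, a2, a3, a4, a5, a6, -⟩ := h.face hgF
        refine ⟨hsub a1, ?_, ?_⟩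
        · show N g1 g2 = g3
          rw [hold _ _ d1.1 d1.2]; exact a5
        · show N g2 g3 = g4
          rw [hold _ _ d2.1 d2.2]; exact a6
    · rw [List.pairwise_cons, List.pairwise_cons]
      refine ⟨?_, ?_, hM2.2⟩
      · intro g hg
        rcases List.mem_cons.1 hg with rfl | hg
        · intro x hx hx2
          simp only [fd, List.mem_cons, List.not_mem_nil, or_false] at hx hx2
          rcases hx with rfl | rfl | rfl | rfl <;> simp only [Prod.mk.injEq] at hx2 <;>
            rcases hx2 with ⟨e1, e2⟩ | ⟨e1, e2⟩ | ⟨e1, e2⟩ | ⟨e1, e2⟩ <;>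
            first
            | exact vq e2 | exact vp e1 | exact hpr e1.symm | exact hsp e1.symm
            | exact hpq e1.symm | exact vq e1 | exact hqr e1 | exact hqs e1.symm
            | exact hpr e1 | exact vr e1 | exact vs e2.symm | exact hrs e1
            | exact vp e2 | exact vp e1.symm | exact vp e2.symm | exact hpr e2.symm
            | exact vr e1.symm | exact vs e1.symm
        · intro x hx hx2
          obtain ⟨y1, y2⟩ := hdisj g hg x hx2
          simp only [fd, List.mem_cons, List.not_mem_nil, or_false] at hx y2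
          rcases hx with rfl | rfl | rfl | rfl
          · tauto
          · tauto
          · exact hDv2 _ y1
          · exact hDv1 _ y1
      · intro g hg x hx hx2
        obtain ⟨y1, y2⟩ := hdisj g hg x hx2
        simp only [fd, List.mem_cons, List.not_mem_nil, or_false] at hx y2
        rcases hx with rfl | rfl | rfl | rfl
        · exact hDv2 _ y1
        · exact hDv1 _ y1
        · tauto
        · tauto

end Pool.Agent.Helper201_BT
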