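import Pool.Agent.Helper201_K3.Faces

set_option autoImplicit false
set_option maxHeartbeats 4000000

namespace Pool.Agent.Helper201_BT

open Pool.Agent.Helper201_K3

/-- A graph on a finite vertex set is planar if it is a spanning subgraph of a connected graph `H`
which has a rotation system `σ` (a permutation of the darts of `H` which moves the darts at each
vertex in a single cycle) with `V - E + F = 2`, where the faces are the cycles of the composition
of `σ` with the reversal of darts. -/
def Planar {V : Type} (G : SimpleGraph V) : Prop :=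
  ∃ H : SimpleGraph V, G ≤ H ∧ H.Connected ∧ ∃ σ : Equiv.Perm H.Dart,
    (∀ d : H.Dart, (σ d).fst = d.fst) ∧
    (∀ d d' : H.Dart, d.fst = d'.fst → ∃ n : ℕ, (σ ^ n) d = d') ∧
    (Nat.card V : ℤ) - (Nat.card H.edgeSet : ℤ)
      + (Nat.card (Quotient (Equiv.Perm.SameCycle.setoid
          (σ * Function.Involutive.toPerm SimpleGraph.Dart.symm
            SimpleGraph.Dart.symm_involutive))) : ℤ) = 2

theorem faces_weight' {V : Type} [Finite V] (G : SimpleGraph V) [Fintype G.Dart]
    (σ : Equiv.Perm G.Dart)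
    (hσ : ∀ d : G.Dart, (σ d).fst = d.fst)
    (ht : ∀ d d' : G.Dart, d.fst = d'.fst → ∃ n : ℕ, (σ ^ n) d = d')
    (hdeg : ∀ e : G.Dart, (∃ w', w' ≠ e.fst ∧ G.Adj e.snd w') ∨
      (∃ w', w' ≠ e.snd ∧ G.Adj e.fst w')) (w : G.Dart → ℕ) (hw : ∀ d, 1 ≤ w d)
    (hw3 : ∀ d₁ d₂ d₃ : G.Dart, d₁.snd = d₂.fst → d₂.snd = d₃.fst → d₃.snd = d₁.fst →
      4 ≤ w d₁ + w d₂ + w d₃) :
    4 * ncyc (σ * al G) ≤ ∑ d, w d := by
  classical
  refine mul_ncyc_le (σ * al G) w 4 fun d => ?_
  set f := σ * al G with hf
  have hfst : ∀ e, (f e).fst = e.snd := by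
    intro e
    rw [hf, Equiv.Perm.mul_apply, al_apply, hσ]
    rfl
  have ha1 : ∀ e, f e ≠ e := by
    intro e he
    have h1 := hfst e
    rw [he] at h1
    exact e.adj.ne h1
  have fixed : ∀ e : G.Dart, σ e = e → ∀ w', G.Adj e.fst w' → w' = e.snd := by
    intro e he w' hw2
    obtain ⟨n, hn⟩ := ht e ⟨(e.fst, w'), hw2⟩ rfl
    have h3 : ∀ n : ℕ, (σ ^ n) e = e := by
      intro n
      induction n with
      | zero => simp
      | succ n ih => rw [pow_succ', Equiv.Perm.mul_apply, ih, he]
    rw [h3] at hn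
    exact (congrArg (fun d : G.Dart => d.snd) hn).symm
  have ha2 : ∀ e, f (f e) ≠ e := by
    intro e he
    have h1 : f e = e.symm := by
      apply SimpleGraph.Dart.ext
      apply Prod.ext
      · exact hfst e
      · have h2 := hfst (f e)
        rw [he] at h2
        exact h2.symm
    have h2 : σ e.symm = e.symm := h1
    have h3 : σ e = e := by
      rw [h1] at he
      have : f e.symm = σ e := by
        rw [hf, Equiv.Perm.mul_apply, al_apply, SimpleGraph.Dart.symm_symm]
      rw [this] at he
      exact he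
    rcases hdeg e with ⟨w', hw1, hw2⟩ | ⟨w', hw1, hw2⟩
    · exact hw1 (fixed e.symm h2 w' hw2)
    · exact hw1 (fixed e h3 w' hw2)
  have hs1 : f.SameCycle d (f d) := ⟨1, by simp⟩
  have hs2 : f.SameCycle d (f (f d)) := ⟨2, by rw [zpow_two]; rfl⟩
  by_cases ha3 : f (f (f d)) = d
  · refine ⟨{d, f d, f (f d)}, ?_, ?_⟩
    · intro x hx
      simp only [Finset.mem_insert, Finset.mem_singleton] at hx
      rcases hx with rfl | rfl | rfl
      · exact Equiv.Perm.SameCycle.refl _ _
      · exact hs1
      · exact hs2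
    · rw [Finset.sum_insert, Finset.sum_insert, Finset.sum_singleton]
      · have h1 := hw3 d (f d) (f (f d)) (hfst _).symm (hfst _).symm (by
          have h2 := hfst (f (f d))
          rw [ha3] at h2
          exact h2.symm)
        omega
      · simp only [Finset.mem_singleton]
        exact (ha1 _).symm
      · simp only [Finset.mem_insert, Finset.mem_singleton, not_or]
        exact ⟨(ha1 _).symm, (ha2 _).symm⟩
  · refine ⟨{d, f d, f (f d), f (f (f d))}, ?_, ?_⟩
    · intro x hx
      simp only [Finset.mem_insert, Finset.mem_singleton] at hx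
      rcases hx with rfl | rfl | rfl | rfl
      · exact Equiv.Perm.SameCycle.refl _ _
      · exact hs1
      · exact hs2
      · exact ⟨3, by
          rw [show (3 : ℤ) = 1 + 1 + 1 by norm_num, zpow_add, zpow_add, zpow_one]
          simp⟩
    · rw [Finset.sum_insert, Finset.sum_insert, Finset.sum_insert, Finset.sum_singleton]
      · have h1 := hw d
        have h2 := hw (f d)
        have h3 := hw (f (f d))
        have h4 := hw (f (f (f d)))
        omega
      · simp only [Finset.mem_singleton]
        exact (ha1 _).symm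
      · simp only [Finset.mem_insert, Finset.mem_singleton, not_or]
        exact ⟨(ha1 _).symm, (ha2 _).symm⟩
      · simp only [Finset.mem_insert, Finset.mem_singleton, not_or]
        exact ⟨(ha1 _).symm, (ha2 _).symm, fun h => ha3 h.symm⟩

/-- in a connected graph with at least three vertices no component is a single edge -/
theorem deg_of_connected {V : Type} [Fintype V] (H : SimpleGraph V) (hc : H.Connected)
    (h3 : 3 ≤ Fintype.card V) (e : H.Dart) : (∃ w', w' ≠ e.fst ∧ H.Adj e.snd w') ∨
      (∃ w', w' ≠ e.snd ∧ H.Adj e.fst w') := by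
  classical
  by_contra hcon
  rw [not_or] at hcon
  obtain ⟨h1, h2⟩ := hcon
  push Not at h1 h2
  have hz : ∃ z, z ∉ ({e.fst, e.snd} : Finset V) := by
    by_contra hz
    push Not at hz
    have := Finset.card_le_card (s := Finset.univ) (t := ({e.fst, e.snd} : Finset V))
      (fun z _ => hz z)
    have h5 := Finset.card_le_two (a := e.fst) (b := e.snd)
    rw [Finset.card_univ] at this
    omega
  obtain ⟨z, hz⟩ := hz
  obtain ⟨p⟩ := hc.preconnected e.fst z
  have key : ∀ {a b : V} (q : H.Walk a b), a ∈ ({e.fst, e.snd} : Finset V) →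
      b ∈ ({e.fst, e.snd} : Finset V) := by
    intro a b q
    induction q with
    | nil => exact id
    | @cons u v w' huv q ih =>
      intro hu
      apply ih
      rw [Finset.mem_insert, Finset.mem_singleton] at hu ⊢
      rcases hu with rfl | rfl
      · by_contra hn
        rw [not_or] at hn
        exact h2 v hn.2 huv
      · by_contra hn
        rw [not_or] at hn
        exact h1 v hn.1 huv
  exact hz (key p (by simp))

theorem planar_bound {V : Type} [Fintype V] [DecidableEq V] (G : SimpleGraph V)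
    [DecidableRel G.Adj] (hG : Planar G) (hb : G.IsBipartite) (h3 : 3 ≤ Fintype.card V) :
    (∑ u : V, ∑ v : V, if G.Adj u v then 1 else 0) + 8 ≤ 4 * Fintype.card V := by
  classical
  obtain ⟨H, hGH, hc, σ, hσ, ht, he⟩ := hG
  obtain ⟨c⟩ := hb
  let g : V → V → ℕ := fun u v => if c u = c v then 2 else 1
  have hw : ∀ d : H.Dart, 1 ≤ g d.fst d.snd := by
    intro d
    show 1 ≤ if c d.fst = c d.snd then 2 else 1
    split <;> omega
  have hw3 : ∀ d₁ d₂ d₃ : H.Dart, d₁.snd = d₂.fst → d₂.snd = d₃.fst → d₃.snd = d₁.fst →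
      4 ≤ g d₁.fst d₁.snd + g d₂.fst d₂.snd + g d₃.fst d₃.snd := by
    intro d₁ d₂ d₃ h1 h2 h3
    rw [← h1, ← h2, h3]
    show 4 ≤ (if c d₁.fst = c d₁.snd then 2 else 1) + (if c d₁.snd = c d₂.snd then 2 else 1) +
      (if c d₂.snd = c d₁.fst then 2 else 1)
    generalize c d₁.fst = x
    generalize c d₁.snd = y
    generalize c d₂.snd = z
    revert x y z
    decide
  have hF := faces_weight' H σ hσ ht (deg_of_connected H hc h3) (fun d => g d.fst d.snd) hw hw3
  rw [sum_dart H g] at hF
  have hE := card_dart H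
  have hone := sum_dart H (fun _ _ => 1)
  rw [Finset.sum_const, smul_eq_mul, mul_one, Finset.card_univ] at hone
  rw [Nat.card_eq_fintype_card] at hE
  have hpt : (∑ u : V, ∑ v : V, if G.Adj u v then 1 else 0) +
      (∑ u : V, ∑ v : V, if H.Adj u v then g u v else 0) ≤
      2 * ∑ u : V, ∑ v : V, if H.Adj u v then 1 else 0 := by
    rw [← Finset.sum_add_distrib, Finset.mul_sum]
    refine Finset.sum_le_sum fun u _ => ?_
    rw [← Finset.sum_add_distrib, Finset.mul_sum]
    refine Finset.sum_le_sum fun v _ => ?_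
    by_cases hH : H.Adj u v
    · by_cases hA : G.Adj u v
      · have := c.valid hA
        simp [hH, hA, g, this]
      · simp only [hH, hA, if_true, if_false, g]
        split <;> omega
    · have hA : ¬ G.Adj u v := fun h => hH (hGH h)
      simp [hH, hA]
  have he' : (Fintype.card V : ℤ) - (Nat.card H.edgeSet : ℤ) + (ncyc (σ * al H) : ℤ) = 2 := by
    rw [← Nat.card_eq_fintype_card]
    exact he
  rw [← hone] at hpt
  omega

theorem lower_bound {p t : ℕ} (hp : p % 4 = 2) (hp6 : 6 ≤ p) (F : Fin t → SimpleGraph (Fin p))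
    (hF : ∀ i, Planar (F i) ∧ (F i).IsBipartite) (hU : ⨆ i, F i = ⊤) : (p + 2) / 4 ≤ t := by
  classical
  have hb : ∀ i, (∑ u : Fin p, ∑ v : Fin p, if (F i).Adj u v then 1 else 0) + 8 ≤ 4 * p := by
    intro i
    have := planar_bound (F i) (hF i).1 (hF i).2 (by rw [Fintype.card_fin]; omega)
    rwa [Fintype.card_fin] at this
  have hcov : ∀ u v : Fin p, (if u = v then 0 else 1) ≤
      ∑ i : Fin t, if (F i).Adj u v then 1 else 0 := by
    intro u v
    by_cases huv : u = v
    · rw [if_pos huv]; exact Nat.zero_le _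
    · rw [if_neg huv]
      have h1 : (⨆ i, F i).Adj u v := by rw [hU]; exact huv
      rw [SimpleGraph.iSup_adj] at h1
      obtain ⟨i, hi⟩ := h1
      have := Finset.single_le_sum (f := fun i : Fin t => if (F i).Adj u v then 1 else 0)
        (fun _ _ => Nat.zero_le _) (Finset.mem_univ i)
      simp only [hi, if_true] at this
      exact this
  have h1 : ∑ u : Fin p, ∑ v : Fin p, (if u = v then 0 else 1) = p * (p - 1) := by
    have : ∀ u : Fin p, ∑ v : Fin p, (if u = v then 0 else 1) = p - 1 := by
      intro u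
      have h2 : ∀ v : Fin p, (if u = v then 0 else 1) = if v ∈ Finset.univ.erase u then 1 else 0 := by
        intro v
        by_cases h : u = v
        · simp [h]
        · simp [h, Ne.symm h]
      simp_rw [h2]
      rw [Finset.sum_ite_mem, Finset.univ_inter, Finset.sum_const, smul_eq_mul, mul_one,
        Finset.card_erase_of_mem (Finset.mem_univ _), Finset.card_univ, Fintype.card_fin]
    rw [Finset.sum_congr rfl (fun u _ => this u), Finset.sum_const, smul_eq_mul,
      Finset.card_univ, Fintype.card_fin]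
  have h2 : p * (p - 1) ≤ ∑ i : Fin t, ∑ u : Fin p, ∑ v : Fin p,
      if (F i).Adj u v then 1 else 0 := by
    have e : ∑ i : Fin t, ∑ u : Fin p, ∑ v : Fin p, (if (F i).Adj u v then 1 else 0) =
        ∑ u : Fin p, ∑ v : Fin p, ∑ i : Fin t, (if (F i).Adj u v then 1 else 0) := by
      rw [Finset.sum_comm]
      refine Finset.sum_congr rfl fun u _ => ?_
      rw [Finset.sum_comm]
    rw [e, ← h1]
    have h5 : ∀ u : Fin p, u ∈ (Finset.univ : Finset (Fin p)) →
        (∑ v : Fin p, (if u = v then 0 else 1)) ≤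
        ∑ v : Fin p, ∑ i : Fin t, (if (F i).Adj u v then 1 else 0) := fun u _ =>
      Finset.sum_le_sum fun v _ => hcov u v
    exact Finset.sum_le_sum h5
  have h3 : ∑ i : Fin t, ∑ u : Fin p, ∑ v : Fin p, (if (F i).Adj u v then 1 else 0) ≤
      t * (4 * p - 8) := by
    have h4 := Finset.sum_le_card_nsmul (Finset.univ : Finset (Fin t))
      (fun i => ∑ u : Fin p, ∑ v : Fin p, (if (F i).Adj u v then 1 else 0)) (4 * p - 8)
      (fun i _ => by have := hb i; show (∑ u : Fin p, ∑ v : Fin p, _) ≤ _; omega)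
    rw [smul_eq_mul, Finset.card_univ, Fintype.card_fin] at h4
    exact h4
  by_contra hlt
  obtain ⟨k, rfl⟩ : ∃ k, p = 4 * k + 2 := ⟨p / 4, by omega⟩
  have h4 : t ≤ k := by omega
  have h5 : (4 * k + 2) * (4 * k + 2 - 1) ≤ t * (4 * (4 * k + 2) - 8) := h2.trans h3
  have e1 : 4 * k + 2 - 1 = 4 * k + 1 := by omega
  have e2 : 4 * (4 * k + 2) - 8 = 16 * k := by omega
  rw [e1, e2] at h5
  have h6 : t * (16 * k) ≤ k * (16 * k) := Nat.mul_le_mul_right _ h4
  nlinarith

end Pool.Agent.Helper201_BT
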