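import Pool.Agent.Helper201_BT.Step

set_option autoImplicit false
set_option maxHeartbeats 4000000

namespace Pool.Agent.Helper201_BT

open Relation

theorem insert_many {S : Finset ℕ} {D : Finset (ℕ × ℕ)} {nx : ℕ → ℕ → ℕ} {col : ℕ → Bool}
    (h : IsQuad S D nx col) {p x r s : ℕ} {L : List (ℕ × ℕ × ℕ × ℕ)}
    (hM : Mk D nx ((p, x, r, s) :: L)) (T : Finset ℕ) (hT : ∀ t ∈ T, t ∉ S) :
    ∃ (D' : Finset (ℕ × ℕ)) (nx' : ℕ → ℕ → ℕ) (col' : ℕ → Bool) (x' : ℕ),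
      IsQuad (T ∪ S) D' nx' col' ∧ D ⊆ D' ∧ (∀ t ∈ T, (t, p) ∈ D' ∧ (t, r) ∈ D') ∧
      Mk D' nx' ((p, x', r, s) :: L) := by
  induction T using Finset.induction_on with
  | empty => exact ⟨D, nx, col, x, by simpa using h, Finset.Subset.refl _, by simp, hM⟩
  | insert t T ht ih =>
    obtain ⟨D1, n1, c1, x1, h1, s1, a1, M1⟩ := ih (fun u hu => hT u (Finset.mem_insert_of_mem hu))
    have ht1 : t ∉ T ∪ S := by
      rw [Finset.mem_union, not_or]
      exact ⟨ht, hT t (Finset.mem_insert_self _ _)⟩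
    obtain ⟨D2, n2, c2, h2, s2, a2, b2, M2⟩ := insert_vertex h1 M1 ht1
    refine ⟨D2, n2, c2, t, ?_, s1.trans s2, ?_, M2.sub (List.Sublist.cons _
      (List.Sublist.refl _))⟩
    · rw [Finset.insert_union]; exact h2
    · intro u hu
      rcases Finset.mem_insert.1 hu with e | hu
      · rw [e]; exact ⟨a2, b2⟩
      · exact ⟨s2 (a1 u hu).1, s2 (a1 u hu).2⟩

def D4 (a b c d : ℕ) : Finset (ℕ × ℕ) :=
  {(a, c), (c, a), (c, b), (b, c), (b, d), (d, b), (d, a), (a, d)}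

theorem mem_D4 {a b c d x y : ℕ} : (x, y) ∈ D4 a b c d ↔ (x = a ∧ y = c) ∨ (x = c ∧ y = a) ∨
    (x = c ∧ y = b) ∨ (x = b ∧ y = c) ∨ (x = b ∧ y = d) ∨ (x = d ∧ y = b) ∨ (x = d ∧ y = a) ∨
    (x = a ∧ y = d) := by
  simp [D4]

def opp (a b c d : ℕ) (x : ℕ) : ℕ :=
  if x = a then b else if x = b then a else if x = c then d else c

theorem base4 {a b c d : ℕ} (hab : a ≠ b) (hac : a ≠ c) (had : a ≠ d) (hbc : b ≠ c)
    (hbd : b ≠ d) (hcd : c ≠ d) :
    IsQuad {a, b, c, d} (D4 a b c d) (fun x _ => opp a b c d x) (fun x => decide (x = a ∨ x = b))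
      ∧ Mk (D4 a b c d) (fun x _ => opp a b c d x) [(a, c, b, d), (c, a, d, b)] := by
  have oa : opp a b c d a = b := by simp [opp]
  have ob : opp a b c d b = a := by simp [opp, hab.symm]
  have oc : opp a b c d c = d := by simp [opp, hac.symm, hbc.symm]
  have od : opp a b c d d = c := by simp [opp, had.symm, hbd.symm, hcd.symm]
  have m1 : (a, c) ∈ D4 a b c d := by simp [D4]
  have m2 : (c, a) ∈ D4 a b c d := by simp [D4]
  have m3 : (c, b) ∈ D4 a b c d := by simp [D4]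
  have m4 : (b, c) ∈ D4 a b c d := by simp [D4]
  have m5 : (b, d) ∈ D4 a b c d := by simp [D4]
  have m6 : (d, b) ∈ D4 a b c d := by simp [D4]
  have m7 : (d, a) ∈ D4 a b c d := by simp [D4]
  have m8 : (a, d) ∈ D4 a b c d := by simp [D4]
  refine ⟨⟨?_, ?_, ?_, ?_, ?_, ?_, ?_, ?_, ?_⟩, ?_, ?_⟩
  · intro x y h
    rw [mem_D4] at h
    rcases h with ⟨rfl, rfl⟩ | ⟨rfl, rfl⟩ | ⟨rfl, rfl⟩ | ⟨rfl, rfl⟩ | ⟨rfl, rfl⟩ | ⟨rfl, rfl⟩ |
      ⟨rfl, rfl⟩ | ⟨rfl, rfl⟩ <;> assumption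
  · intro x y h
    rw [mem_D4] at h
    rcases h with ⟨rfl, rfl⟩ | ⟨rfl, rfl⟩ | ⟨rfl, rfl⟩ | ⟨rfl, rfl⟩ | ⟨rfl, rfl⟩ | ⟨rfl, rfl⟩ |
      ⟨rfl, rfl⟩ | ⟨rfl, rfl⟩ <;> simp
  · intro x y h
    rw [mem_D4] at h
    rcases h with ⟨rfl, rfl⟩ | ⟨rfl, rfl⟩ | ⟨rfl, rfl⟩ | ⟨rfl, rfl⟩ | ⟨rfl, rfl⟩ | ⟨rfl, rfl⟩ |
      ⟨rfl, rfl⟩ | ⟨rfl, rfl⟩ <;>
      simp [hab, hac, had, hbc, hbd, hcd, hab.symm, hac.symm, had.symm, hbc.symm, hbd.symm,
        hcd.symm]
  · intro x y h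
    rw [mem_D4] at h
    rcases h with ⟨rfl, rfl⟩ | ⟨rfl, rfl⟩ | ⟨rfl, rfl⟩ | ⟨rfl, rfl⟩ | ⟨rfl, rfl⟩ | ⟨rfl, rfl⟩ |
      ⟨rfl, rfl⟩ | ⟨rfl, rfl⟩ <;> simp only [oa, ob, oc, od] <;> assumption
  · intro x y h
    rw [mem_D4] at h
    rcases h with ⟨rfl, rfl⟩ | ⟨rfl, rfl⟩ | ⟨rfl, rfl⟩ | ⟨rfl, rfl⟩ | ⟨rfl, rfl⟩ | ⟨rfl, rfl⟩ |
      ⟨rfl, rfl⟩ | ⟨rfl, rfl⟩ <;> simp only [oa, ob, oc, od] <;>
      first | exact hab | exact hab.symm | exact hcd | exact hcd.symm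
  · intro x y h
    rw [mem_D4] at h
    rcases h with ⟨rfl, rfl⟩ | ⟨rfl, rfl⟩ | ⟨rfl, rfl⟩ | ⟨rfl, rfl⟩ | ⟨rfl, rfl⟩ | ⟨rfl, rfl⟩ |
      ⟨rfl, rfl⟩ | ⟨rfl, rfl⟩ <;> simp only [oa, ob, oc, od]
  · intro z x y hx hy
    rw [mem_D4] at hx hy
    by_cases hxy : x = y
    · rw [hxy]
    refine ReflTransGen.single ⟨?_, ?_⟩
    · rw [mem_D4]; exact hx
    · show opp a b c d x = y
      have k1 : ∀ x, ((z = a ∧ x = c) ∨ (z = c ∧ x = a) ∨ (z = c ∧ x = b) ∨ (z = b ∧ x = c) ∨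
          (z = b ∧ x = d) ∨ (z = d ∧ x = b) ∨ (z = d ∧ x = a) ∨ (z = a ∧ x = d)) →
          (z = a ∨ z = b) ∧ (x = c ∨ x = d) ∨ (z = c ∨ z = d) ∧ (x = a ∨ x = b) := by
        intro x h
        rcases h with ⟨e1, e2⟩ | ⟨e1, e2⟩ | ⟨e1, e2⟩ | ⟨e1, e2⟩ | ⟨e1, e2⟩ | ⟨e1, e2⟩ |
          ⟨e1, e2⟩ | ⟨e1, e2⟩
        · exact Or.inl ⟨Or.inl e1, Or.inl e2⟩
        · exact Or.inr ⟨Or.inl e1, Or.inl e2⟩
        · exact Or.inr ⟨Or.inl e1, Or.inr e2⟩
        · exact Or.inl ⟨Or.inr e1, Or.inl e2⟩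
        · exact Or.inl ⟨Or.inr e1, Or.inr e2⟩
        · exact Or.inr ⟨Or.inr e1, Or.inr e2⟩
        · exact Or.inr ⟨Or.inr e1, Or.inl e2⟩
        · exact Or.inl ⟨Or.inl e1, Or.inr e2⟩
      have zz : (z = a ∨ z = b) → (z = c ∨ z = d) → False := by
        rintro (e | e) (f | f)
        · exact hac (e.symm.trans f)
        · exact had (e.symm.trans f)
        · exact hbc (e.symm.trans f)
        · exact hbd (e.symm.trans f)
      rcases k1 x hx with ⟨z1, x1⟩ | ⟨z1, x1⟩ <;> rcases k1 y hy with ⟨z2, y1⟩ | ⟨z2, y1⟩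
      · rcases x1 with e | e <;> rcases y1 with f | f <;> rw [e, f] <;>
          first | exact oc | exact od | exact absurd (e.trans f.symm) hxy
      · exact (zz z1 z2).elim
      · exact (zz z2 z1).elim
      · rcases x1 with e | e <;> rcases y1 with f | f <;> rw [e, f] <;>
          first | exact oa | exact ob | exact absurd (e.trans f.symm) hxy
  · have toa : ∀ x, x ∈ ({a, b, c, d} : Finset ℕ) →
        ReflTransGen (fun x y => (x, y) ∈ D4 a b c d) x a ∧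
        ReflTransGen (fun x y => (x, y) ∈ D4 a b c d) a x := by
      intro x hx
      simp only [Finset.mem_insert, Finset.mem_singleton] at hx
      rcases hx with rfl | rfl | rfl | rfl
      · exact ⟨ReflTransGen.refl, ReflTransGen.refl⟩
      · exact ⟨(ReflTransGen.single m4).tail m2, (ReflTransGen.single m1).tail m3⟩
      · exact ⟨ReflTransGen.single m2, ReflTransGen.single m1⟩
      · exact ⟨ReflTransGen.single m7, ReflTransGen.single m8⟩
    intro x y hx hy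
    exact (toa x hx).1.trans (toa y hy).2
  · have h4 : ({a, b, c, d} : Finset ℕ).card = 4 := by
      rw [Finset.card_insert_of_notMem, Finset.card_insert_of_notMem,
        Finset.card_insert_of_notMem, Finset.card_singleton] <;>
        simp [hab, hac, had, hbc, hbd, hcd]
    have h8 : (D4 a b c d).card = 8 := by
      rw [D4, Finset.card_insert_of_notMem, Finset.card_insert_of_notMem,
        Finset.card_insert_of_notMem, Finset.card_insert_of_notMem,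
        Finset.card_insert_of_notMem, Finset.card_insert_of_notMem,
        Finset.card_insert_of_notMem, Finset.card_singleton] <;>
        simp [hab, hac, had, hbc, hbd, hcd, hab.symm, hac.symm, had.symm, hbc.symm,
          hbd.symm, hcd.symm]
    rw [h4, h8]
  · intro f hf
    simp only [List.mem_cons, List.not_mem_nil, or_false] at hf
    rcases hf with rfl | rfl
    · exact ⟨m1, oa, oc⟩
    · exact ⟨m2, oc, oa⟩
  · rw [List.pairwise_cons]
    refine ⟨?_, List.pairwise_singleton _ _⟩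
    intro g hg
    rw [List.mem_singleton] at hg
    subst hg
    intro x hx hx2
    simp only [fd, List.mem_cons, List.not_mem_nil, or_false] at hx hx2
    rcases hx with rfl | rfl | rfl | rfl <;>
      simp [hab, hac, had, hbc, hbd, hcd, hab.symm, hac.symm, had.symm, hbc.symm,
          hbd.symm, hcd.symm] at hx2

theorem new_graph {X Y : Finset ℕ} {a b c d v q : ℕ} (hab : a ≠ b) (hac : a ≠ c) (had : a ≠ d)
    (hbc : b ≠ c) (hbd : b ≠ d) (hcd : c ≠ d) (hv : v ∈ X) (hq : q ∈ Y) (hXY : Disjoint X Y)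
    (ha : a ∉ X ∪ Y) (hb : b ∉ X ∪ Y) (hc : c ∉ X ∪ Y) (hd : d ∉ X ∪ Y) :
    ∃ D, NG (insert d (insert c (insert b (insert a (X ∪ Y))))) D (a, b) (q, b) (c, d) (v, d) ∧
      (a, c) ∈ D ∧ (b, c) ∈ D ∧ (b, d) ∈ D ∧ (a, d) ∈ D ∧
      (∀ x ∈ X, (x, a) ∈ D ∧ (x, b) ∈ D) ∧ (∀ y ∈ Y, (y, c) ∈ D ∧ (y, d) ∈ D) := by
  obtain ⟨h0, M0⟩ := base4 hab hac had hbc hbd hcd
  have hX : ∀ t ∈ X, t ∉ ({a, b, c, d} : Finset ℕ) := by
    intro t ht hc'
    simp only [Finset.mem_insert, Finset.mem_singleton] at hc'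
    have ht' : t ∈ X ∪ Y := Finset.mem_union_left _ ht
    rcases hc' with rfl | rfl | rfl | rfl
    · exact ha ht'
    · exact hb ht'
    · exact hc ht'
    · exact hd ht'
  have hY : ∀ t ∈ Y, t ∉ ({a, b, c, d} : Finset ℕ) := by
    intro t ht hc'
    simp only [Finset.mem_insert, Finset.mem_singleton] at hc'
    have ht' : t ∈ X ∪ Y := Finset.mem_union_right _ ht
    rcases hc' with rfl | rfl | rfl | rfl
    · exact ha ht'
    · exact hb ht'
    · exact hc ht'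
    · exact hd ht'
  obtain ⟨D1, n1, c1, x1, h1, s1, a1, M1⟩ := insert_many h0 M0 (X.erase v)
    (fun t ht => hX t (Finset.mem_of_mem_erase ht))
  have hv1 : v ∉ X.erase v ∪ {a, b, c, d} := by
    rw [Finset.mem_union, not_or]
    exact ⟨Finset.notMem_erase _ _, hX v hv⟩
  obtain ⟨D2, n2, c2, h2, s2, a2, b2, M2⟩ := insert_vertex h1 M1 hv1
  have M2' : Mk D2 n2 [(c, a, d, b), (a, x1, b, v), (a, v, b, d)] :=
    M2.perm (List.perm_append_comm (l₁ := [(a, x1, b, v), (a, v, b, d)]) (l₂ := [(c, a, d, b)]))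
  have hYX : ∀ t ∈ Y, t ∉ insert v (X.erase v ∪ {a, b, c, d}) := by
    intro t ht hc'
    rw [Finset.mem_insert, Finset.mem_union] at hc'
    rcases hc' with e | hc' | hc'
    · exact (Finset.disjoint_left.1 hXY hv) (e ▸ ht)
    · exact (Finset.disjoint_left.1 hXY (Finset.mem_of_mem_erase hc')) ht
    · exact hY t ht hc'
  obtain ⟨D3, n3, c3, x3, h3, s3, a3, M3⟩ := insert_many h2 M2' (Y.erase q)
    (fun t ht => hYX t (Finset.mem_of_mem_erase ht))
  have hq1 : q ∉ Y.erase q ∪ insert v (X.erase v ∪ {a, b, c, d}) := by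
    rw [Finset.mem_union, not_or]
    exact ⟨Finset.notMem_erase _ _, hYX q hq⟩
  obtain ⟨D4', n4, c4, h4, s4, a4, b4, M4⟩ := insert_vertex h3 M3 hq1
  have M5 : Mk D4' n4 [(c, q, d, b), (a, x1, b, v), (a, v, b, d), (c, x3, d, q)] :=
    M4.perm (List.perm_append_comm (l₁ := [(c, x3, d, q)])
      (l₂ := [(c, q, d, b), (a, x1, b, v), (a, v, b, d)]))
  have M6 := h4.mkRot M5
  have M7 : Mk D4' n4 [(a, v, b, d), (c, x3, d, q), (q, d, b, c), (a, x1, b, v)] :=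
    M6.perm (List.perm_append_comm (l₁ := [(q, d, b, c), (a, x1, b, v)])
      (l₂ := [(a, v, b, d), (c, x3, d, q)]))
  have M8 := h4.mkRot M7
  have M9 : Mk D4' n4 [(a, x1, b, v), (q, d, b, c), (c, x3, d, q), (v, b, d, a)] := by
    refine M8.perm ?_
    refine (List.reverse_perm _).symm.trans ?_
    exact List.Perm.refl _
  have hS : insert q (Y.erase q ∪ insert v (X.erase v ∪ {a, b, c, d}))
      = insert d (insert c (insert b (insert a (X ∪ Y)))) := by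
    ext z
    simp only [Finset.mem_insert, Finset.mem_union, Finset.mem_erase, Finset.mem_singleton]
    constructor
    · rintro (rfl | ⟨-, h⟩ | rfl | ⟨-, h⟩ | rfl | rfl | rfl | rfl) <;> tauto
    · rintro (rfl | rfl | rfl | rfl | h | h)
      · tauto
      · tauto
      · tauto
      · tauto
      · by_cases e : z = v <;> tauto
      · by_cases e : z = q <;> tauto
  rw [hS] at h4
  have sub : D2 ⊆ D4' := s3.trans s4
  have sub0 : D4 a b c d ⊆ D4' := s1.trans (s2.trans sub)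
  refine ⟨D4', ⟨n4, c4, x1, v, d, c, x3, q, b, a, h4, M9⟩, ?_, ?_, ?_, ?_, ?_, ?_⟩
  · exact sub0 (by simp [D4])
  · exact sub0 (by simp [D4])
  · exact sub0 (by simp [D4])
  · exact sub0 (by simp [D4])
  · intro x hx
    by_cases e : x = v
    · rw [e]; exact ⟨sub a2, sub b2⟩
    · have := a1 x (Finset.mem_erase.2 ⟨e, hx⟩)
      exact ⟨sub (s2 this.1), sub (s2 this.2)⟩
  · intro y hy
    by_cases e : y = q
    · rw [e]; exact ⟨a4, b4⟩
    · have := a3 y (Finset.mem_erase.2 ⟨e, hy⟩)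
      exact ⟨s4 this.1, s4 this.2⟩

end Pool.Agent.Helper201_BT
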