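import Pool.Agent.Helper201_BT.Insert

set_option autoImplicit false
set_option maxHeartbeats 4000000

namespace Pool.Agent.Helper201_BT

open Relation

/-- an ordinary member of the family: four different faces with diagonals `P, P', Q, Q'` -/
def NG (S : Finset ℕ) (D : Finset (ℕ × ℕ)) (P P' Q Q' : ℕ × ℕ) : Prop :=
  ∃ (nx : ℕ → ℕ → ℕ) (col : ℕ → Bool) (q s q' s' x y x' y' : ℕ), IsQuad S D nx col ∧
    Mk D nx [(P.1, q, P.2, s), (P'.1, q', P'.2, s'), (Q.1, x, Q.2, y), (Q'.1, x', Q'.2, y')]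

/-- a special member: a face `(p,q,r,·)` and two more faces with diagonals `Q, Q'` -/
def SG (S : Finset ℕ) (D : Finset (ℕ × ℕ)) (p q r : ℕ) (Q Q' : ℕ × ℕ) : Prop :=
  ∃ (nx : ℕ → ℕ → ℕ) (col : ℕ → Bool) (s x y x' y' : ℕ), IsQuad S D nx col ∧
    Mk D nx [(p, q, r, s), (Q.1, x, Q.2, y), (Q'.1, x', Q'.2, y')]

theorem NG.step {S : Finset ℕ} {D : Finset (ℕ × ℕ)} {P P' Q Q' : ℕ × ℕ}
    (h : NG S D P P' Q Q') {a b c d : ℕ} (ha : a ∉ S) (hb : b ∉ insert a S)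
    (hc : c ∉ insert b (insert a S)) (hd : d ∉ insert c (insert b (insert a S))) :
    ∃ D', NG (insert d (insert c (insert b (insert a S)))) D' P P' Q Q' ∧ D ⊆ D' ∧
      (a, P.1) ∈ D' ∧ (a, P.2) ∈ D' ∧ (b, P'.1) ∈ D' ∧ (b, P'.2) ∈ D' ∧
      (c, Q.1) ∈ D' ∧ (c, Q.2) ∈ D' ∧ (d, Q'.1) ∈ D' ∧ (d, Q'.2) ∈ D' := by
  obtain ⟨nx, col, q, s, q', s', x, y, x', y', h0, hM⟩ := h
  obtain ⟨D1, n1, c1, h1, s1, a1, a2, M1⟩ := insert_vertex h0 hM ha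
  have M1' : Mk D1 n1 [(P'.1, q', P'.2, s'), (Q.1, x, Q.2, y), (Q'.1, x', Q'.2, y'),
      (P.1, q, P.2, a)] := by
    refine (M1.sub (L' := [(P.1, q, P.2, a), (P'.1, q', P'.2, s'), (Q.1, x, Q.2, y),
      (Q'.1, x', Q'.2, y')]) ?_).perm ?_
    · exact List.Sublist.cons_cons _ (List.Sublist.cons _ (List.Sublist.refl _))
    · exact (List.perm_append_comm (l₁ := [(P.1, q, P.2, a)])
        (l₂ := [(P'.1, q', P'.2, s'), (Q.1, x, Q.2, y), (Q'.1, x', Q'.2, y')]))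
  obtain ⟨D2, n2, c2, h2, s2, b1, b2, M2⟩ := insert_vertex h1 M1' hb
  have M2' : Mk D2 n2 [(Q.1, x, Q.2, y), (Q'.1, x', Q'.2, y'), (P.1, q, P.2, a),
      (P'.1, q', P'.2, b)] := by
    refine (M2.sub (L' := [(P'.1, q', P'.2, b), (Q.1, x, Q.2, y), (Q'.1, x', Q'.2, y'),
      (P.1, q, P.2, a)]) ?_).perm ?_
    · exact List.Sublist.cons_cons _ (List.Sublist.cons _ (List.Sublist.refl _))
    · exact (List.perm_append_comm (l₁ := [(P'.1, q', P'.2, b)])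
        (l₂ := [(Q.1, x, Q.2, y), (Q'.1, x', Q'.2, y'), (P.1, q, P.2, a)]))
  obtain ⟨D3, n3, c3, h3, s3, e1, e2, M3⟩ := insert_vertex h2 M2' hc
  have M3' : Mk D3 n3 [(Q'.1, x', Q'.2, y'), (P.1, q, P.2, a), (P'.1, q', P'.2, b),
      (Q.1, x, Q.2, c)] := by
    refine (M3.sub (L' := [(Q.1, x, Q.2, c), (Q'.1, x', Q'.2, y'), (P.1, q, P.2, a),
      (P'.1, q', P'.2, b)]) ?_).perm ?_
    · exact List.Sublist.cons_cons _ (List.Sublist.cons _ (List.Sublist.refl _))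
    · exact (List.perm_append_comm (l₁ := [(Q.1, x, Q.2, c)])
        (l₂ := [(Q'.1, x', Q'.2, y'), (P.1, q, P.2, a), (P'.1, q', P'.2, b)]))
  obtain ⟨D4, n4, c4, h4, s4, f1, f2, M4⟩ := insert_vertex h3 M3' hd
  have M4' : Mk D4 n4 [(P.1, q, P.2, a), (P'.1, q', P'.2, b), (Q.1, x, Q.2, c),
      (Q'.1, x', Q'.2, d)] := by
    refine (M4.sub (L' := [(Q'.1, x', Q'.2, d), (P.1, q, P.2, a), (P'.1, q', P'.2, b),
      (Q.1, x, Q.2, c)]) ?_).perm ?_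
    · exact List.Sublist.cons_cons _ (List.Sublist.cons _ (List.Sublist.refl _))
    · exact (List.perm_append_comm (l₁ := [(Q'.1, x', Q'.2, d)])
        (l₂ := [(P.1, q, P.2, a), (P'.1, q', P'.2, b), (Q.1, x, Q.2, c)]))
  refine ⟨D4, ⟨n4, c4, q, a, q', b, x, c, x', d, h4, M4'⟩,
    s1.trans (s2.trans (s3.trans s4)), s4 (s3 (s2 a1)), s4 (s3 (s2 a2)), s4 (s3 b1),
    s4 (s3 b2), s4 e1, s4 e2, f1, f2⟩

theorem SG.step {S : Finset ℕ} {D : Finset (ℕ × ℕ)} {p q r : ℕ} {Q Q' : ℕ × ℕ}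
    (h : SG S D p q r Q Q') {a b c d : ℕ} (ha : a ∉ S) (hb : b ∉ insert a S)
    (hc : c ∉ insert b (insert a S)) (hd : d ∉ insert c (insert b (insert a S))) :
    ∃ D', SG (insert d (insert c (insert b (insert a S)))) D' p a r Q Q' ∧ D ⊆ D' ∧
      (a, p) ∈ D' ∧ (a, r) ∈ D' ∧ (b, a) ∈ D' ∧ (b, q) ∈ D' ∧
      (c, Q.1) ∈ D' ∧ (c, Q.2) ∈ D' ∧ (d, Q'.1) ∈ D' ∧ (d, Q'.2) ∈ D' := by
  obtain ⟨nx, col, s, x, y, x', y', h0, hM⟩ := h
  obtain ⟨D1, n1, c1, h1, s1, a1, a2, M1⟩ := insert_vertex h0 hM ha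
  have M1' := h1.mkRot M1
  obtain ⟨D2, n2, c2, h2, s2, b1, b2, M2⟩ := insert_vertex h1 M1' hb
  have M2' : Mk D2 n2 [(Q.1, x, Q.2, y), (Q'.1, x', Q'.2, y'), (p, a, r, s)] := by
    refine (M2.sub (L' := [(p, a, r, s), (Q.1, x, Q.2, y), (Q'.1, x', Q'.2, y')]) ?_).perm ?_
    · exact List.Sublist.cons _ (List.Sublist.cons _ (List.Sublist.refl _))
    · exact (List.perm_append_comm (l₁ := [(p, a, r, s)])
        (l₂ := [(Q.1, x, Q.2, y), (Q'.1, x', Q'.2, y')]))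
  obtain ⟨D3, n3, c3, h3, s3, e1, e2, M3⟩ := insert_vertex h2 M2' hc
  have M3' : Mk D3 n3 [(Q'.1, x', Q'.2, y'), (p, a, r, s), (Q.1, x, Q.2, c)] := by
    refine (M3.sub (L' := [(Q.1, x, Q.2, c), (Q'.1, x', Q'.2, y'), (p, a, r, s)]) ?_).perm ?_
    · exact List.Sublist.cons_cons _ (List.Sublist.cons _ (List.Sublist.refl _))
    · exact (List.perm_append_comm (l₁ := [(Q.1, x, Q.2, c)])
        (l₂ := [(Q'.1, x', Q'.2, y'), (p, a, r, s)]))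
  obtain ⟨D4, n4, c4, h4, s4, f1, f2, M4⟩ := insert_vertex h3 M3' hd
  have M4' : Mk D4 n4 [(p, a, r, s), (Q.1, x, Q.2, c), (Q'.1, x', Q'.2, d)] := by
    refine (M4.sub (L' := [(Q'.1, x', Q'.2, d), (p, a, r, s), (Q.1, x, Q.2, c)]) ?_).perm ?_
    · exact List.Sublist.cons_cons _ (List.Sublist.cons _ (List.Sublist.refl _))
    · exact (List.perm_append_comm (l₁ := [(Q'.1, x', Q'.2, d)])
        (l₂ := [(p, a, r, s), (Q.1, x, Q.2, c)]))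
  refine ⟨D4, ⟨n4, c4, s, x, c, x', d, h4, M4'⟩,
    s1.trans (s2.trans (s3.trans s4)), s4 (s3 (s2 a1)), s4 (s3 (s2 a2)), s4 (s3 b2),
    s4 (s3 b1), s4 e1, s4 e2, f1, f2⟩

end Pool.Agent.Helper201_BT
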