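import Pool.Agent.Helper201_BT.Lower
import Pool.Agent.Helper201_BT.Base

set_option autoImplicit false
set_option maxHeartbeats 4000000

namespace Pool.Agent.Helper201_BT

open Pool.Agent.Helper201_K3 Relation

theorem four_orbit {D : Type} (f : Equiv.Perm D) (d : D) (h4 : ∀ d, f (f (f (f d))) = d) (i : ℤ) :
    (f ^ i) d = d ∨ (f ^ i) d = f d ∨ (f ^ i) d = f (f d) ∨ (f ^ i) d = f (f (f d)) := by
  have h : f ^ (4 : ℤ) = 1 := by
    ext x
    rw [show (4 : ℤ) = 1 + 1 + 1 + 1 by norm_num, zpow_add, zpow_add, zpow_add, zpow_one]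
    simp only [Equiv.Perm.mul_apply, Equiv.Perm.one_apply]
    exact h4 x
  have h1 : f ^ i = f ^ (i % 4) := by
    conv_lhs => rw [← Int.emod_add_mul_ediv i 4]
    rw [zpow_add, zpow_mul, h, one_zpow, mul_one]
  rw [h1]
  have h2 : i % 4 = 0 ∨ i % 4 = 1 ∨ i % 4 = 2 ∨ i % 4 = 3 := by omega
  rcases h2 with h2 | h2 | h2 | h2 <;> rw [h2]
  · left; simp
  · right; left; simp
  · right; right; left
    rw [show (2 : ℤ) = 1 + 1 by norm_num, zpow_add, zpow_one]; rfl
  · right; right; right
    rw [show (3 : ℤ) = 1 + 1 + 1 by norm_num, zpow_add, zpow_add, zpow_one]; rfl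

theorem ncyc_four {D : Type} [Fintype D] [DecidableEq D] (f : Equiv.Perm D)
    (h4 : ∀ d, f (f (f (f d))) = d) (h2 : ∀ d, f (f d) ≠ d) : 4 * ncyc f = Fintype.card D := by
  classical
  have : Fintype (Quotient (Equiv.Perm.SameCycle.setoid f)) := Fintype.ofFinite _
  have h1 : ∀ d, f d ≠ d := fun d hd => h2 d (by rw [hd, hd])
  rw [ncyc, Nat.card_eq_fintype_card, ← Finset.card_univ (α := D),
    Finset.card_eq_sum_card_fiberwise (f := fun x => Quotient.mk (Equiv.Perm.SameCycle.setoid f) x)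
      (t := Finset.univ) (fun _ _ => Finset.mem_univ _)]
  rw [Finset.sum_congr rfl (g := fun _ => 4), Finset.sum_const, Finset.card_univ, smul_eq_mul,
    mul_comm]
  intro q _
  induction q using Quotient.inductionOn with | _ d
  have hset : (Finset.univ.filter fun x => Quotient.mk (Equiv.Perm.SameCycle.setoid f) x =
      Quotient.mk (Equiv.Perm.SameCycle.setoid f) d) = {d, f d, f (f d), f (f (f d))} := by
    ext x
    simp only [Finset.mem_filter, Finset.mem_univ, true_and, Finset.mem_insert,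
      Finset.mem_singleton]
    constructor
    · intro hx
      obtain ⟨i, hi⟩ := (Quotient.exact hx : f.SameCycle x d).symm
      rw [← hi]
      exact four_orbit f d h4 i
    · intro hx
      refine Quotient.sound ?_
      show f.SameCycle x d
      rcases hx with e | e | e | e
      · rw [e]
      · rw [e]; exact Equiv.Perm.SameCycle.symm ⟨1, by simp⟩
      · rw [e]; exact Equiv.Perm.SameCycle.symm ⟨2, by rw [zpow_two]; rfl⟩
      · rw [e]; exact Equiv.Perm.SameCycle.symm ⟨3, by
          rw [show (3 : ℤ) = 1 + 1 + 1 by norm_num, zpow_add, zpow_add, zpow_one]; rfl⟩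
  have h3 : ∀ d, f (f (f d)) ≠ d := by
    intro d hd
    have := h4 d
    rw [hd] at this
    exact h1 d this
  show (Finset.univ.filter fun x => Quotient.mk (Equiv.Perm.SameCycle.setoid f) x =
      Quotient.mk (Equiv.Perm.SameCycle.setoid f) d).card = 4
  rw [hset, Finset.card_insert_of_notMem, Finset.card_insert_of_notMem,
    Finset.card_insert_of_notMem, Finset.card_singleton]
  · rw [Finset.mem_singleton]
    exact (h1 _).symm
  · simp only [Finset.mem_insert, Finset.mem_singleton, not_or]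
    exact ⟨(h1 _).symm, (h2 _).symm⟩
  · simp only [Finset.mem_insert, Finset.mem_singleton, not_or]
    exact ⟨(h1 _).symm, (h2 _).symm, (h3 _).symm⟩

/-- the graph on `0, …, n-1` with darts `D` -/
def gr (n : ℕ) (D : Finset (ℕ × ℕ)) : SimpleGraph (Fin n) :=
  SimpleGraph.fromRel fun x y => (x.1, y.1) ∈ D

section
variable {n : ℕ} {D : Finset (ℕ × ℕ)} {nx : ℕ → ℕ → ℕ} {col : ℕ → Bool}

theorem gr_adj (h : IsQuad (Finset.range n) D nx col) (x y : Fin n) :
    (gr n D).Adj x y ↔ (x.1, y.1) ∈ D := by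
  rw [gr, SimpleGraph.fromRel_adj]
  constructor
  · rintro ⟨-, h1 | h1⟩
    · exact h1
    · exact h.symm _ _ h1
  · intro h1
    refine ⟨?_, Or.inl h1⟩
    intro e
    exact h.ne h1 (by rw [e])

theorem IsQuad.lt2 (h : IsQuad (Finset.range n) D nx col) {u v : ℕ} (huv : (u, v) ∈ D) :
    v < n := Finset.mem_range.1 (h.mem2 huv)

theorem dD (h : IsQuad (Finset.range n) D nx col) (d : (gr n D).Dart) :
    (d.fst.1, d.snd.1) ∈ D := (gr_adj h _ _).1 d.adj

/-- the face permutation -/
def phi (h : IsQuad (Finset.range n) D nx col) (d : (gr n D).Dart) : (gr n D).Dart :=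
  ⟨(d.snd, ⟨nx d.fst.1 d.snd.1, h.lt2 (h.nxD _ _ (dD h d))⟩),
    (gr_adj h _ _).2 (h.nxD _ _ (dD h d))⟩

theorem dart_ext {G : SimpleGraph (Fin n)} {d e : G.Dart} (h1 : d.fst.1 = e.fst.1)
    (h2 : d.snd.1 = e.snd.1) : d = e :=
  SimpleGraph.Dart.ext _ _ (Prod.ext (Fin.ext h1) (Fin.ext h2))

theorem phi4 (h : IsQuad (Finset.range n) D nx col) (d : (gr n D).Dart) :
    phi h (phi h (phi h (phi h d))) = d := by
  have h1 := h.nx3 _ _ (dD h d)
  have h2 := h.nx4 (dD h d)
  refine dart_ext h1 ?_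
  show nx (nx d.snd.1 (nx d.fst.1 d.snd.1))
    (nx (nx d.fst.1 d.snd.1) (nx d.snd.1 (nx d.fst.1 d.snd.1))) = _
  rw [h1]
  exact h2

def phiE (h : IsQuad (Finset.range n) D nx col) : Equiv.Perm (gr n D).Dart where
  toFun := phi h
  invFun d := phi h (phi h (phi h d))
  left_inv := phi4 h
  right_inv := phi4 h

theorem card_gr_dart (h : IsQuad (Finset.range n) D nx col) :
    Nat.card (gr n D).Dart = D.card := by
  have e : (gr n D).Dart ≃ {x // x ∈ D} :=
    { toFun := fun d => ⟨(d.fst.1, d.snd.1), dD h d⟩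
      invFun := fun x => ⟨(⟨x.1.1, Finset.mem_range.1 (h.mem _ _ x.2)⟩, ⟨x.1.2, h.lt2 x.2⟩),
        (gr_adj h _ _).2 x.2⟩
      left_inv := fun d => rfl
      right_inv := fun x => rfl }
  rw [Nat.card_congr e, Nat.card_eq_fintype_card, Fintype.card_coe]

theorem planar_gr (h : IsQuad (Finset.range n) D nx col) (hn : 0 < n) : Planar (gr n D) := by
  classical
  have hal : al (gr n D) * al (gr n D) = 1 := by
    ext1 d
    show d.symm.symm = d
    exact SimpleGraph.Dart.symm_symm d
  refine ⟨gr n D, le_refl _, ?_, phiE h * al (gr n D), ?_, ?_, ?_⟩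
  · have hr : ∀ u v : ℕ, ReflTransGen (fun x y => (x, y) ∈ D) u v → ∀ (hu : u < n) (hv : v < n),
        (gr n D).Reachable ⟨u, hu⟩ ⟨v, hv⟩ := by
      intro u v huv
      induction huv with
      | refl => intro hu hv; exact SimpleGraph.Reachable.refl _
      | @tail b c _ hs ih =>
        intro hu hv
        have hb : b < n := Finset.mem_range.1 (h.mem _ _ hs)
        exact (ih hu hb).trans (SimpleGraph.Adj.reachable ((gr_adj h _ _).2 hs))
    have : Nonempty (Fin n) := ⟨⟨0, hn⟩⟩
    refine ⟨fun x y => ?_⟩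
    exact hr x.1 y.1 (h.conn _ _ (Finset.mem_range.2 x.2) (Finset.mem_range.2 y.2)) x.2 y.2
  · intro d
    rfl
  · intro d d' hdd
    have hr := h.rot d.fst.1 d.snd.1 d'.snd.1 (dD h d) (by rw [hdd]; exact dD h d')
    have key : ∀ b : ℕ, ReflTransGen (fun x y => (d.fst.1, x) ∈ D ∧ nx x d.fst.1 = y) d.snd.1 b →
        ∀ e : (gr n D).Dart, e.fst.1 = d.fst.1 → e.snd.1 = b →
          ∃ k : ℕ, ((phiE h * al (gr n D)) ^ k) d = e := by
      intro b hb
      induction hb with
      | refl =>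
        intro e he1 he2
        exact ⟨0, by rw [pow_zero]; exact dart_ext he1.symm he2.symm⟩
      | @tail c b _ hs ih =>
        intro e he1 he2
        obtain ⟨k, hk⟩ := ih ⟨(d.fst, ⟨c, h.lt2 hs.1⟩), (gr_adj h _ _).2 hs.1⟩ rfl rfl
        refine ⟨k + 1, ?_⟩
        rw [pow_succ', Equiv.Perm.mul_apply, hk]
        refine dart_ext he1.symm ?_
        show nx c d.fst.1 = e.snd.1
        rw [hs.2, he2]
    exact key _ hr d' (by rw [hdd]) rfl
  · have e1 : phiE h * al (gr n D) * Function.Involutive.toPerm SimpleGraph.Dart.symm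
        SimpleGraph.Dart.symm_involutive = phiE h := by
      show phiE h * al (gr n D) * al (gr n D) = phiE h
      rw [mul_assoc, hal, mul_one]
    rw [e1]
    have h1 : 4 * ncyc (phiE h) = Fintype.card (gr n D).Dart := by
      refine ncyc_four (phiE h) (phi4 h) ?_
      intro d hd
      have h2 : nx d.fst.1 d.snd.1 = d.fst.1 :=
        congrArg (fun d : (gr n D).Dart => d.fst.1) hd
      exact h.nxne _ _ (dD h d) h2
    have h2 := card_dart (gr n D)
    have h3 := card_gr_dart h
    have h4 := h.card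
    rw [Finset.card_range] at h4
    rw [← Nat.card_eq_fintype_card] at h1
    rw [ncyc] at h1
    have h5 : Nat.card (Fin n) = n := by rw [Nat.card_eq_fintype_card, Fintype.card_fin]
    rw [h5]
    omega

theorem bip_gr (h : IsQuad (Finset.range n) D nx col) : (gr n D).IsBipartite := by
  have c : (gr n D).Coloring Bool := SimpleGraph.Coloring.mk (fun x => col x.1) (by
    intro x y hxy
    exact h.hcol _ _ ((gr_adj h _ _).1 hxy))
  have := c.colorable
  rwa [Fintype.card_bool] at this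

end

theorem NG.quad {S : Finset ℕ} {D : Finset (ℕ × ℕ)} {P P' Q Q' : ℕ × ℕ}
    (h : NG S D P P' Q Q') : ∃ nx col, IsQuad S D nx col := by
  obtain ⟨nx, col, q, s, q', s', x1, y1, x', y', h0, -⟩ := h
  exact ⟨nx, col, h0⟩

theorem SG.quad {S : Finset ℕ} {D : Finset (ℕ × ℕ)} {p q r : ℕ} {Q Q' : ℕ × ℕ}
    (h : SG S D p q r Q Q') : ∃ nx col, IsQuad S D nx col := by
  obtain ⟨nx, col, s, x1, y1, x', y', h0, -⟩ := h
  exact ⟨nx, col, h0⟩

theorem upper_bound (k : ℕ) : ∃ F : Fin (k + 4) → SimpleGraph (Fin (14 + 4 * k)),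
    (∀ i, Planar (F i) ∧ (F i).IsBipartite) ∧ ⨆ i, F i = ⊤ := by
  classical
  obtain ⟨X, Y, ι, _, D, P, P', Q, Q', D1, D2, p, q, r, u, v, w, E, E', F, F', hXY, hU, hcard,
    hN, hS1, hS2, hqY, hvX, hcov, -⟩ := St.all k
  set n := 14 + 4 * k with hn
  let G : Option (Option ι) → SimpleGraph (Fin n) := fun o =>
    match o with
    | none => gr n D1
    | some none => gr n D2
    | some (some i) => gr n (D i)
  have hG : ∀ o, Planar (G o) ∧ (G o).IsBipartite := by
    intro o
    rcases o with _ | _ | i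
    · obtain ⟨nx, col, h⟩ := hS1.quad
      exact ⟨planar_gr h (by omega), bip_gr h⟩
    · obtain ⟨nx, col, h⟩ := hS2.quad
      exact ⟨planar_gr h (by omega), bip_gr h⟩
    · obtain ⟨nx, col, h⟩ := (hN i).quad
      exact ⟨planar_gr h (by omega), bip_gr h⟩
  have hc : Fintype.card (Option (Option ι)) = k + 4 := by
    rw [Fintype.card_option, Fintype.card_option, hcard]; omega
  let e : Fin (k + 4) ≃ Option (Option ι) := (Fintype.equivFinOfCardEq hc).symm
  refine ⟨fun i => G (e i), fun i => hG _, ?_⟩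
  rw [eq_top_iff]
  intro x y hxy
  have hxy' : x ≠ y := hxy
  rw [SimpleGraph.iSup_adj]
  have hne : x.1 ≠ y.1 := fun h => hxy' (Fin.ext h)
  rcases hcov x.1 y.1 x.2 y.2 hne with h | h | ⟨i, h⟩
  · obtain ⟨nx, col, h0⟩ := hS1.quad
    refine ⟨e.symm none, ?_⟩
    rw [Equiv.apply_symm_apply]
    exact (gr_adj h0 x y).2 h
  · obtain ⟨nx, col, h0⟩ := hS2.quad
    refine ⟨e.symm (some none), ?_⟩
    rw [Equiv.apply_symm_apply]
    exact (gr_adj h0 x y).2 h
  · obtain ⟨nx, col, h0⟩ := (hN i).quad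
    refine ⟨e.symm (some (some i)), ?_⟩
    rw [Equiv.apply_symm_apply]
    exact (gr_adj h0 x y).2 h

end Pool.Agent.Helper201_BT
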